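import Pool.Agent.Lib.MP_9b987c_gt.HC.UR.Def
import Pool.Agent.Lib.MP_9b987c_gt.HC.PLF

/-!
# The category of representations up to homotopy on bundles of locally constant rank
-/

namespace Pool.Agent.Lib.MP_9b987c_gt.HC.UR

open scoped Manifold ContDiff BigOperators Topology
open CategoryTheory

section Pull

variable {G' G : LieGpd}

lemma pull_smooth (φ : Hypercover G' G) {ι κ : Type} [DecidableEq ι]
    {A : G.Ob → List G.Ar → (ι → ℝ) →ₗ[ℝ] (κ → ℝ)} (hA : G.Smooth A) : G'.Smooth (pullG φ A) := by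
  rw [SMPM.smooth_iff] at hA ⊢
  intro d U x gs hU hx hg hc i j
  have h := hA d U (fun u => φ.ob (x u)) (gs.map (fun g u => φ.ar (g u))) hU
    (φ.ob_subm.contMDiff.comp_contMDiffOn hx)
    (fun g' hg' => by
      obtain ⟨g, hg1, rfl⟩ := List.mem_map.1 hg'
      exact φ.ar_smooth.comp_contMDiffOn (hg g hg1))
    (fun u hu => by
      have h1 := SMPM.pull_chain φ (hc u hu)
      rw [List.map_map] at h1 ⊢
      exact h1) i j
  refine h.congr (fun u hu => ?_)
  rw [pullG, if_pos (hc u hu), List.map_map, List.map_map]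
  rfl

/-- The equation of a representation up to homotopy on all frames. -/
def REq0 (G : LieGpd) {ι : Type} (R : G.Ob → List G.Ar → (ι → ℝ) →ₗ[ℝ] (ι → ℝ)) : Prop :=
  ∀ (V : Type) (Fr : Frame G V) v l, fc (Fr.hom R) v l = cv (eps (Fr.hom R)) (Fr.hom R) v l

lemma req0_iff {G : LieGpd} {ι : Type} {R : G.Ob → List G.Ar → (ι → ℝ) →ₗ[ℝ] (ι → ℝ)} :
    (∀ x l, G.Chain x l →
      ∑ j ∈ Finset.range (l.length - 1), ((-1 : ℝ) ^ (j + 1)) • R x (G.face j l) =
      ∑ j ∈ Finset.range (l.length + 1),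
        ((-1 : ℝ) ^ j) • (R x (l.take j) ∘ₗ R (G.fin x (l.take j)) (l.drop j))) ↔ REq0 G R := by
  obtain ⟨f1, f2, f3, f4, f5, -, -, -, -, -, -⟩ := specFRM G
  have key : ∀ (V : Type) (Fr : Frame G V) v l,
      (fc (Fr.hom R) v l = cv (eps (Fr.hom R)) (Fr.hom R) v l) ↔
      (∑ j ∈ Finset.range ((Fr.arr v l).length - 1), ((-1 : ℝ) ^ (j + 1)) •
        R (Fr.b v) (G.face j (Fr.arr v l)) =
      ∑ j ∈ Finset.range ((Fr.arr v l).length + 1),
        ((-1 : ℝ) ^ j) • (R (Fr.b v) ((Fr.arr v l).take j) ∘ₗ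
          R (G.fin (Fr.b v) ((Fr.arr v l).take j)) ((Fr.arr v l).drop j))) := by
    intro V Fr v l
    have h3 := f3 V Fr ι ι ι R R v l
    have h4 := f4 V Fr ι ι R v l
    rw [← h3, ← h4]
    simp only [(f1 V Fr v l).2.2]
  constructor
  · intro h V Fr v l
    rw [key]
    exact h _ _ (f1 V Fr v l).1
  · intro h x l hl
    obtain ⟨l', hl', hx⟩ := f5 x l hl
    have := (key _ (wf G x) (wf0 G x) l').1 (h _ (wf G x) (wf0 G x) l')
    rw [hl', hx] at this
    exact this

/-- Pullback of representations up to homotopy. -/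
lemma pull_ok (φ : Hypercover G' G) {ι : Type} [DecidableEq ι] {deg : ι → ℤ}
    {e : G.Ob → (ι → ℝ) →ₗ[ℝ] (ι → ℝ)} {R : G.Ob → List G.Ar → (ι → ℝ) →ₗ[ℝ] (ι → ℝ)}
    (h : IsRuthU G deg e R) : IsRuthU G' deg (fun x => e (φ.ob x)) (pullG φ R) where
  deg_bdd := h.deg_bdd
  e_fin := by
    intro x
    obtain ⟨S, hS⟩ := h.e_fin (φ.ob x)
    exact ⟨S, (φ.ob_subm.contMDiff.continuous.continuousAt).eventually hS⟩
  e_smooth := fun i j => (h.e_smooth i j).comp φ.ob_subm.contMDiff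
  e_idem := fun x => h.e_idem _
  e_deg := fun x => h.e_deg _
  R_zero := PULM.pull_zero φ R
  R_smooth := pull_smooth φ h.R_smooth
  R_deg := by
    intro x l
    by_cases hc : G'.Chain x l
    · rw [pullG, if_pos hc]
      have := h.R_deg (φ.ob x) (l.map φ.ar)
      rwa [List.length_map] at this
    · rw [PULM.pull_zero φ R x l hc]
      exact Deg.zero
  R_left := by
    intro x l
    by_cases hc : G'.Chain x l
    · rw [pullG, if_pos hc]
      exact h.R_left _ _
    · rw [PULM.pull_zero φ R x l hc, LinearMap.comp_zero]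
  R_right := by
    intro x l
    by_cases hc : G'.Chain x l
    · rw [pullG, if_pos hc, ← PULM.fin_map]
      exact h.R_right _ _
    · rw [PULM.pull_zero φ R x l hc, LinearMap.zero_comp]
  eqn := by
    rw [req0_iff]
    intro V Fr v l
    rw [PULM.hom_pull]
    exact req0_iff.1 h.eqn V (Fr.push φ) v l
  unit_one := by
    intro x
    have hc : G'.Chain x [G'.one x] := ⟨G'.tgt_one x, trivial⟩
    rw [pullG, if_pos hc, List.map_cons, List.map_nil, φ.ar_one]
    exact h.unit_one _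
  unit_mem := by
    intro x l hl hy
    by_cases hc : G'.Chain x l
    · rw [pullG, if_pos hc]
      obtain ⟨y, hy⟩ := hy
      refine h.unit_mem _ _ (by rwa [List.length_map]) ⟨φ.ob y, ?_⟩
      rw [← φ.ar_one]
      exact List.mem_map_of_mem hy
    · exact PULM.pull_zero φ R x l hc

/-- Pullback of morphisms. -/
lemma pullHom_ok (φ : Hypercover G' G) {ι κ : Type} [DecidableEq ι] [DecidableEq κ] {deg : ι → ℤ}
    {e : G.Ob → (ι → ℝ) →ₗ[ℝ] (ι → ℝ)} {R : G.Ob → List G.Ar → (ι → ℝ) →ₗ[ℝ] (ι → ℝ)}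
    {deg' : κ → ℤ} {e' : G.Ob → (κ → ℝ) →ₗ[ℝ] (κ → ℝ)}
    {R' : G.Ob → List G.Ar → (κ → ℝ) →ₗ[ℝ] (κ → ℝ)} {F : G.Ob → List G.Ar → (ι → ℝ) →ₗ[ℝ] (κ → ℝ)}
    (h : IsHomU G deg e R deg' e' R' F) :
    IsHomU G' deg (fun x => e (φ.ob x)) (pullG φ R) deg' (fun x => e' (φ.ob x)) (pullG φ R')
      (pullG φ F) where
  F_zero := PULM.pull_zero φ F
  F_smooth := pull_smooth φ h.F_smooth
  F_deg := by
    intro x l
    by_cases hc : G'.Chain x l
    · rw [pullG, if_pos hc]
      have := h.F_deg (φ.ob x) (l.map φ.ar)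
      rwa [List.length_map] at this
    · rw [PULM.pull_zero φ F x l hc]
      exact Deg.zero
  F_left := by
    intro x l
    by_cases hc : G'.Chain x l
    · rw [pullG, if_pos hc]
      exact h.F_left _ _
    · rw [PULM.pull_zero φ F x l hc, LinearMap.comp_zero]
  F_right := by
    intro x l
    by_cases hc : G'.Chain x l
    · rw [pullG, if_pos hc, ← PULM.fin_map]
      exact h.F_right _ _
    · rw [PULM.pull_zero φ F x l hc, LinearMap.zero_comp]
  eqn := by
    rw [heq0_iff]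
    intro V Fr v l
    rw [PULM.hom_pull, PULM.hom_pull, PULM.hom_pull]
    exact heq0_iff.1 h.eqn V (Fr.push φ) v l

end Pull

lemma unit_star {G : LieGpd} {ι κ : Type} [DecidableEq ι] [DecidableEq κ] {deg : ι → ℤ}
    {e : G.Ob → (ι → ℝ) →ₗ[ℝ] (ι → ℝ)} {R : G.Ob → List G.Ar → (ι → ℝ) →ₗ[ℝ] (ι → ℝ)}
    {deg' : κ → ℤ} {e' : G.Ob → (κ → ℝ) →ₗ[ℝ] (κ → ℝ)}
    {R' : G.Ob → List G.Ar → (κ → ℝ) →ₗ[ℝ] (κ → ℝ)} {B : G.Ob → List G.Ar → (ι → ℝ) →ₗ[ℝ] (κ → ℝ)}
    (hB : IsHomU G deg e R deg' e' R' B) :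
    starG G (unitG G e') B = B ∧ starG G B (unitG G e) = B := by
  have hFRM := specFRM
  constructor
  · refine CNGM.ext_frames hFRM (starG_zero (unitG_zero e') hB.F_zero) hB.F_zero
      (fun V F v l => ?_)
    rw [CNGM.hom_star hFRM, CNGM.hom_unit hFRM, DLBM.cv_unt_left]
    exact hB.F_left _ _
  · refine CNGM.ext_frames hFRM (starG_zero hB.F_zero (unitG_zero e)) hB.F_zero
      (fun V F v l => ?_)
    rw [CNGM.hom_star hFRM, CNGM.hom_unit hFRM, DLBM.cv_unt_right]
    have h := hB.F_right (F.b v) (F.arr v l)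
    rw [((hFRM G).1 V F v l).2.1] at h
    exact h

/-- The category of representations up to homotopy on bundles of locally constant rank. -/
instance (G : LieGpd) : Category (RuthU G) where
  Hom := RuthU.Hom
  id E := ⟨unitG G E.e, id_ok E.ok⟩
  comp {E E' E''} f g := ⟨starG G g.F f.F, comp_ok E'.ok g.ok f.ok⟩
  id_comp {E E'} f := by
    apply RuthU.Hom.ext
    exact (unit_star f.ok).2
  comp_id {E E'} f := by
    apply RuthU.Hom.ext
    exact (unit_star f.ok).1
  assoc {E₁ E₂ E₃ E₄} f g h := by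
    apply RuthU.Hom.ext
    funext x l
    exact (CNGM.starG_assoc h.F g.F f.F x l).symm

/-- The class of quasi-isomorphisms. -/
def qisU (G : LieGpd) : MorphismProperty (RuthU G) :=
  fun E E' f => ∀ x, QisAt (E.e x) (E.R x []) (E'.e x) (E'.R x []) (f.F x [])

/-- The pullback functor of a hypercover. -/
noncomputable def pullU {G' G : LieGpd} (φ : Hypercover G' G) : RuthU G ⥤ RuthU G' where
  obj E := ⟨E.ι, E.deg, fun x => E.e (φ.ob x), pullG φ E.R, pull_ok φ E.ok⟩
  map {E E'} f := ⟨pullG φ f.F, pullHom_ok φ f.ok⟩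
  map_id E := by
    apply RuthU.Hom.ext
    funext x l
    cases l with
    | nil => simp [pullG, LieGpd.Chain]; rfl
    | cons g l =>
      change pullG φ (unitG G E.e) x (g :: l) = 0
      simp [pullG, unitG]
  map_comp {E E' E''} f g := by
    apply RuthU.Hom.ext
    exact PULM.pull_star φ g.F f.F

lemma pullG_nil {G' G : LieGpd} (φ : Hypercover G' G) {ι κ : Type}
    (A : G.Ob → List G.Ar → (ι → ℝ) →ₗ[ℝ] (κ → ℝ)) (x : G'.Ob) :
    pullG φ A x [] = A (φ.ob x) [] := by
  simp [pullG, LieGpd.Chain]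

/-- The pullback functor preserves quasi-isomorphisms. -/
theorem pullU_qis {G' G : LieGpd} (φ : Hypercover G' G) :
    qisU G ≤ (qisU G').inverseImage (pullU φ) := by
  intro E E' f hf x
  change QisAt (E.e (φ.ob x)) (pullG φ E.R x []) (E'.e (φ.ob x)) (pullG φ E'.R x [])
    (pullG φ f.F x [])
  rw [pullG_nil, pullG_nil, pullG_nil]
  exact hf (φ.ob x)

/-- The pullback functor as a functor compatible with quasi-isomorphisms. -/
noncomputable def pullLMU {G' G : LieGpd} (φ : Hypercover G' G) :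
    LocalizerMorphism (qisU G) (qisU G') where
  functor := pullU φ
  map := pullU_qis φ

end Pool.Agent.Lib.MP_9b987c_gt.HC.UR
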