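import Pool.Agent.Lib.MP_9b987c_gt.HC.PB.Defs
import Pool.Agent.Lib.MP_9b987c_gt.HC.UR.Cat
import Pool.Agent.Lib.MP_9b987c_gt.HC.NU.NEX

section
/-!
# Representations up to homotopy: identities, compositions, pullbacks
-/
namespace Pool.Agent.Lib.MP_9b987c_gt.HC

open scoped Manifold ContDiff BigOperators Topology

namespace PB

variable {u b : Bool} {G' G : LieGpd} {ι κ μ : Type}

lemma hasDeg_iff {deg : ι → ℤ} {deg' : κ → ℤ} {F : Lin ι κ} {s : ℤ} :
    HasDeg deg deg' F s ↔ Deg deg deg' F s := Iff.rfl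

lemma smth_iff [DecidableEq ι] {A : Fam G ι κ} : Smth G A ↔ G.Smooth A := Iff.rfl

lemma idF_eq (e : G.Ob → Lin ι ι) : idF G e = unitG G e := by
  funext x l
  cases l <;> rfl

lemma mulF_eq (A : Fam G κ μ) (B : Fam G ι κ) : mulF G A B = starG G A B := rfl

lemma pullF_eq (φ : Hypercover G' G) (A : Fam G ι κ) : pullF φ A = pullG φ A := rfl

lemma qis_iff {e d : Lin ι ι} {e' d' : Lin κ κ} {F : Lin ι κ} :
    Qis e d e' d' F ↔ QisAt e d e' d' F := Iff.rfl

/-- The identity is a morphism. -/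
theorem id_mor [DecidableEq ι] {deg : ι → ℤ} {e : G.Ob → Lin ι ι} {R : Fam G ι ι}
    (h : IsRep u b G deg e R) : IsMor G deg e R deg e R (idF G e) := by
  rw [idF_eq]
  refine ⟨UR.unitG_zero e, ?_, ?_, ?_, ?_, ?_⟩
  · rw [smth_iff, SMPM.smooth_iff]
    intro d U x gs hU hx hg hc i j
    cases gs with
    | nil => exact ((h.e_smooth i j).comp_contMDiffOn hx).contDiffOn
    | cons g gs =>
      refine (contDiffOn_const (c := (0:ℝ))).congr (fun u _ => ?_)
      simp [unitG]
  · intro x l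
    cases l with
    | nil =>
      have := h.e_deg x
      rw [hasDeg_iff] at this ⊢
      simpa [unitG] using this
    | cons g l => exact Deg.zero
  · intro x l
    cases l with
    | nil => exact h.e_idem x
    | cons g l => exact LinearMap.comp_zero _
  · intro x l
    cases l with
    | nil => exact h.e_idem x
    | cons g l => exact LinearMap.zero_comp _
  · obtain ⟨f1, f2, f3, f4, f5, f6, f7, -, -, -, -⟩ := specFRM G
    refine UR.heq0_iff.2 ?_
    intro V Fr v l
    have h1 : Fr.hom (unitG G e) = unt (fun v => e (Fr.b v)) := by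
      funext v l
      exact f7 V Fr ι e v l
    have h2 : eps (unt (fun v => e (Fr.b v))) = unt (fun v => e (Fr.b v)) := by
      funext v l
      cases l with
      | nil => simp [eps]
      | cons u l => simp [eps, unt]
    rw [h1, h2, DLBM.fc_unt, DLBM.cv_unt_left, DLBM.cv_unt_right, add_zero]
    have h3 := h.R_left (Fr.b v) (Fr.arr v l)
    have h4 := h.R_right (Fr.b v) (Fr.arr v l)
    rw [(f1 V Fr v l).2.1] at h4
    exact h3.trans h4.symm

/-- The composition of morphisms is a morphism. -/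
theorem mul_mor [DecidableEq ι] [DecidableEq κ] [DecidableEq μ] {dE : ι → ℤ}
    {dF : κ → ℤ} {dG : μ → ℤ} {eE : G.Ob → Lin ι ι} {RE : Fam G ι ι} {eF : G.Ob → Lin κ κ}
    {RF : Fam G κ κ} {eG : G.Ob → Lin μ μ} {RG : Fam G μ μ} (hF : IsRep u b G dF eF RF)
    {A : Fam G κ μ} {B : Fam G ι κ} (hA : IsMor G dF eF RF dG eG RG A)
    (hB : IsMor G dE eE RE dF eF RF B) : IsMor G dE eE RE dG eG RG (mulF G A B) := by
  rw [mulF_eq]
  refine ⟨UR.starG_zero hA.F_zero hB.F_zero,
    UR.starG_smooth_fin hF.e_fin hB.F_left hA.F_smooth hB.F_smooth, ?_, ?_, ?_, ?_⟩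
  · intro x l
    refine Deg.sum (fun j hj => ?_)
    have hj' : j ≤ l.length := Nat.lt_succ_iff.1 (Finset.mem_range.1 hj)
    refine (Deg.comp (hA.F_deg x (l.take j)) (hB.F_deg _ (l.drop j))).congr ?_
    rw [List.length_take, List.length_drop, min_eq_left hj']
    push_cast [hj']
    ring
  · intro x l
    refine LinearMap.ext (fun z => ?_)
    simp only [starG]
    rw [LinearMap.comp_apply, LinearMap.sum_apply, map_sum]
    refine Finset.sum_congr rfl (fun j _ => ?_)
    rw [← LinearMap.comp_apply, ← LinearMap.comp_assoc]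
    exact congrArg (fun X : Lin κ μ => (X ∘ₗ B (G.fin x (l.take j)) (l.drop j)) z)
      (hA.F_left x (l.take j))
  · intro x l
    refine LinearMap.ext (fun z => ?_)
    simp only [starG]
    rw [LinearMap.comp_apply, LinearMap.sum_apply, LinearMap.sum_apply]
    refine Finset.sum_congr rfl (fun j _ => ?_)
    rw [← LinearMap.comp_apply, LinearMap.comp_assoc]
    congr 2
    have h := hB.F_right (G.fin x (l.take j)) (l.drop j)
    rw [UR.fin_fin] at h
    exact h
  · obtain ⟨f1, f2, f3, f4, f5, f6, f7, -, -, -, -⟩ := specFRM G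
    refine UR.heq0_iff.2 ?_
    have hA' := UR.heq0_iff.1 hA.eqn
    have hB' := UR.heq0_iff.1 hB.eqn
    intro V Fr v l
    obtain ⟨-, l2, -, -, -⟩ := specLEI ℝ V (ι → ℝ) (ι → ℝ) (κ → ℝ) (μ → ℝ)
    obtain ⟨-, l2', -, -, -⟩ := specLEI ℝ V (ι → ℝ) (κ → ℝ) (κ → ℝ) (μ → ℝ)
    obtain ⟨-, l2'', -, -, -⟩ := specLEI ℝ V (ι → ℝ) (κ → ℝ) (μ → ℝ) (μ → ℝ)
    obtain ⟨-, -, -, l4, -⟩ := specLEI ℝ V (ι → ℝ) (κ → ℝ) (μ → ℝ) (μ → ℝ)
    have h1 : Fr.hom (starG G A B) = cv (Fr.hom A) (Fr.hom B) := by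
      funext v l
      exact f2 V Fr ι κ μ A B v l
    have h2 : eps (cv (Fr.hom A) (Fr.hom B)) = cv (eps (Fr.hom A)) (eps (Fr.hom B)) := by
      funext v l
      exact UR.eps_cv _ _ v l
    have h3 : cv (eps (Fr.hom B)) (Fr.hom RE) = cv (Fr.hom RF) (Fr.hom B) + fc (Fr.hom B) := by
      funext v l
      exact hB' V Fr v l
    have h4 : cv (eps (Fr.hom A)) (Fr.hom RF) = cv (Fr.hom RG) (Fr.hom A) + fc (Fr.hom A) := by
      funext v l
      exact hA' V Fr v l
    have h5 : cv (cv (eps (Fr.hom A)) (eps (Fr.hom B))) (Fr.hom RE) v l =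
        cv (eps (Fr.hom A)) (cv (eps (Fr.hom B)) (Fr.hom RE)) v l := l2 _ _ _ v l
    have h6 : cv (cv (eps (Fr.hom A)) (Fr.hom RF)) (Fr.hom B) v l =
        cv (eps (Fr.hom A)) (cv (Fr.hom RF) (Fr.hom B)) v l := l2' _ _ _ v l
    have h7 : cv (cv (Fr.hom RG) (Fr.hom A)) (Fr.hom B) v l =
        cv (Fr.hom RG) (cv (Fr.hom A) (Fr.hom B)) v l := l2'' _ _ _ v l
    rw [h1, h2, h5, h3, cv_add_right, ← h6, h4, cv_add_left, h7, l4, add_assoc]

/-- The identity families are units for the composition. -/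
theorem id_mul [DecidableEq ι] [DecidableEq κ] {deg : ι → ℤ} {e : G.Ob → Lin ι ι} {R : Fam G ι ι}
    {deg' : κ → ℤ} {e' : G.Ob → Lin κ κ} {R' : Fam G κ κ} {B : Fam G ι κ}
    (hB : IsMor G deg e R deg' e' R' B) :
    mulF G (idF G e') B = B ∧ mulF G B (idF G e) = B := by
  have hFRM := specFRM
  rw [mulF_eq, mulF_eq, idF_eq, idF_eq]
  constructor
  · refine CNGM.ext_frames hFRM (UR.starG_zero (UR.unitG_zero e') hB.F_zero) hB.F_zero
      (fun V F v l => ?_)
    rw [CNGM.hom_star hFRM, CNGM.hom_unit hFRM, DLBM.cv_unt_left]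
    exact hB.F_left _ _
  · refine CNGM.ext_frames hFRM (UR.starG_zero hB.F_zero (UR.unitG_zero e)) hB.F_zero
      (fun V F v l => ?_)
    rw [CNGM.hom_star hFRM, CNGM.hom_unit hFRM, DLBM.cv_unt_right]
    have h := hB.F_right (F.b v) (F.arr v l)
    rw [((hFRM G).1 V F v l).2.1] at h
    exact h

theorem mul_assoc' {ν : Type} (A : Fam G μ ν) (B : Fam G κ μ) (C : Fam G ι κ) :
    mulF G (mulF G A B) C = mulF G A (mulF G B C) := by
  funext x l
  exact CNGM.starG_assoc A B C x l

/-- Pullback of representations up to homotopy. -/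
theorem pull_rep (φ : Hypercover G' G) [DecidableEq ι] {deg : ι → ℤ} {e : G.Ob → Lin ι ι}
    {R : Fam G ι ι} (h : IsRep u b G deg e R) :
    IsRep u b G' deg (fun x => e (φ.ob x)) (pullF φ R) where
  deg_bdd := h.deg_bdd
  e_fin := by
    intro x
    obtain ⟨S, hS⟩ := h.e_fin (φ.ob x)
    exact ⟨S, (φ.ob_subm.contMDiff.continuous.continuousAt).eventually hS⟩
  e_smooth := fun i j => (h.e_smooth i j).comp φ.ob_subm.contMDiff
  e_idem := fun x => h.e_idem _
  e_deg := fun x => h.e_deg _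
  R_zero := PULM.pull_zero φ R
  R_smooth := UR.pull_smooth φ h.R_smooth
  R_deg := by
    intro x l
    by_cases hc : G'.Chain x l
    · rw [pullF, if_pos hc]
      have := h.R_deg (φ.ob x) (l.map φ.ar)
      rwa [List.length_map] at this
    · rw [pullF, if_neg hc]
      exact Deg.zero
  R_left := by
    intro x l
    by_cases hc : G'.Chain x l
    · rw [pullF, if_pos hc]
      exact h.R_left _ _
    · rw [pullF, if_neg hc]
      exact LinearMap.comp_zero _
  R_right := by
    intro x l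
    by_cases hc : G'.Chain x l
    · rw [pullF, if_pos hc, ← PULM.fin_map]
      exact h.R_right _ _
    · rw [pullF, if_neg hc]
      exact LinearMap.zero_comp _
  eqn := by
    refine UR.req0_iff.2 ?_
    intro V Fr v l
    rw [pullF_eq, PULM.hom_pull]
    exact UR.req0_iff.1 h.eqn V (Fr.push φ) v l
  unit_one := by
    intro hu x
    have hc : G'.Chain x [G'.one x] := ⟨G'.tgt_one x, trivial⟩
    rw [pullF, if_pos hc, List.map_cons, List.map_nil, φ.ar_one]
    exact h.unit_one hu _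
  unit_mem := by
    intro hu x l hl hy
    by_cases hc : G'.Chain x l
    · rw [pullF, if_pos hc]
      obtain ⟨y, hy⟩ := hy
      refine h.unit_mem hu _ _ (by rwa [List.length_map]) ⟨φ.ob y, ?_⟩
      rw [← φ.ar_one]
      exact List.mem_map_of_mem hy
    · exact PULM.pull_zero φ R x l hc
  bounded := h.bounded

/-- Pullback of morphisms. -/
theorem pull_mor (φ : Hypercover G' G) [DecidableEq ι] [DecidableEq κ] {deg : ι → ℤ}
    {e : G.Ob → Lin ι ι} {R : Fam G ι ι} {deg' : κ → ℤ} {e' : G.Ob → Lin κ κ} {R' : Fam G κ κ}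
    {F : Fam G ι κ} (h : IsMor G deg e R deg' e' R' F) :
    IsMor G' deg (fun x => e (φ.ob x)) (pullF φ R) deg' (fun x => e' (φ.ob x)) (pullF φ R')
      (pullF φ F) where
  F_zero := PULM.pull_zero φ F
  F_smooth := UR.pull_smooth φ h.F_smooth
  F_deg := by
    intro x l
    by_cases hc : G'.Chain x l
    · rw [pullF, if_pos hc]
      have := h.F_deg (φ.ob x) (l.map φ.ar)
      rwa [List.length_map] at this
    · rw [pullF, if_neg hc]
      exact Deg.zero
  F_left := by
    intro x l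
    by_cases hc : G'.Chain x l
    · rw [pullF, if_pos hc]
      exact h.F_left _ _
    · rw [pullF, if_neg hc]
      exact LinearMap.comp_zero _
  F_right := by
    intro x l
    by_cases hc : G'.Chain x l
    · rw [pullF, if_pos hc, ← PULM.fin_map]
      exact h.F_right _ _
    · rw [pullF, if_neg hc]
      exact LinearMap.zero_comp _
  eqn := by
    refine UR.heq0_iff.2 ?_
    intro V Fr v l
    rw [pullF_eq, pullF_eq, pullF_eq, PULM.hom_pull, PULM.hom_pull, PULM.hom_pull]
    exact UR.heq0_iff.1 h.eqn V (Fr.push φ) v l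

theorem pull_idF (φ : Hypercover G' G) (e : G.Ob → Lin ι ι) :
    pullF φ (idF G e) = idF G' (fun x => e (φ.ob x)) := by
  funext x l
  cases l with
  | nil =>
    rw [pullF, if_pos (show G'.Chain x [] from trivial)]
    rfl
  | cons g l =>
    rw [pullF, List.map_cons]
    split_ifs <;> rfl

theorem pull_mulF (φ : Hypercover G' G) (A : Fam G κ μ) (B : Fam G ι κ) :
    pullF φ (mulF G A B) = mulF G' (pullF φ A) (pullF φ B) :=
  PULM.pull_star φ A B

theorem pull_nil (φ : Hypercover G' G) (A : Fam G ι κ) (x : G'.Ob) :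
    pullF φ A x [] = A (φ.ob x) [] := by
  rw [pullF, if_pos (show G'.Chain x [] from trivial)]
  rfl

end PB

end Pool.Agent.Lib.MP_9b987c_gt.HC
end

section
/-!
# Fibre cohomology, ranks of families of idempotents
-/
namespace Pool.Agent.Lib.MP_9b987c_gt.HC.UR

open scoped Manifold ContDiff BigOperators Topology
open CategoryTheory

section Coh

variable {ι κ μ : Type}

/-- The cocycles of a complex. -/
def Zs (e d : (ι → ℝ) →ₗ[ℝ] (ι → ℝ)) : Submodule ℝ (ι → ℝ) where
  carrier := {z | e z = z ∧ d z = 0}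
  add_mem' := by
    rintro a b ⟨h1, h2⟩ ⟨h3, h4⟩
    exact ⟨by rw [map_add, h1, h3], by rw [map_add, h2, h4, add_zero]⟩
  zero_mem' := ⟨map_zero _, map_zero _⟩
  smul_mem' := by
    rintro c a ⟨h1, h2⟩
    exact ⟨by rw [map_smul, h1], by rw [map_smul, h2, smul_zero]⟩

/-- The boundaries, in the cocycles. -/
def Bs (e d : (ι → ℝ) →ₗ[ℝ] (ι → ℝ)) : Submodule ℝ (Zs e d) :=
  (LinearMap.range d).comap (Zs e d).subtype

/-- The cohomology. -/
abbrev Hs (e d : (ι → ℝ) →ₗ[ℝ] (ι → ℝ)) : Type := Zs e d ⧸ Bs e d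

lemma mk_eq {e d : (ι → ℝ) →ₗ[ℝ] (ι → ℝ)} (z z' : Zs e d) :
    (Submodule.Quotient.mk z : Hs e d) = Submodule.Quotient.mk z' ↔
      ∃ y, d y = z.1 - z'.1 := by
  rw [Submodule.Quotient.eq]
  rfl

/-- The chain map condition. -/
def IsCh (e d : (ι → ℝ) →ₗ[ℝ] (ι → ℝ)) (e' d' : (κ → ℝ) →ₗ[ℝ] (κ → ℝ))
    (F : (ι → ℝ) →ₗ[ℝ] (κ → ℝ)) : Prop :=
  e' ∘ₗ F = F ∧ F ∘ₗ d = d' ∘ₗ F

/-- The map on cocycles. -/
def zMap {e d : (ι → ℝ) →ₗ[ℝ] (ι → ℝ)} {e' d' : (κ → ℝ) →ₗ[ℝ] (κ → ℝ)}
    {F : (ι → ℝ) →ₗ[ℝ] (κ → ℝ)} (h : IsCh e d e' d' F) : Zs e d →ₗ[ℝ] Zs e' d' :=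
  F.restrict (p := Zs e d) (q := Zs e' d') (fun z hz =>
    ⟨LinearMap.congr_fun h.1 z, by
      have := LinearMap.congr_fun h.2 z
      rw [LinearMap.comp_apply, LinearMap.comp_apply, hz.2, map_zero] at this
      exact this.symm⟩)

/-- The map on cohomology. -/
noncomputable def hMap {e d : (ι → ℝ) →ₗ[ℝ] (ι → ℝ)} {e' d' : (κ → ℝ) →ₗ[ℝ] (κ → ℝ)}
    {F : (ι → ℝ) →ₗ[ℝ] (κ → ℝ)} (h : IsCh e d e' d' F) : Hs e d →ₗ[ℝ] Hs e' d' :=
  Submodule.mapQ (Bs e d) (Bs e' d') (zMap h) (by
    rintro z ⟨y, hy⟩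
    refine ⟨F y, ?_⟩
    change d' (F y) = F z.1
    have := LinearMap.congr_fun h.2 y
    rw [LinearMap.comp_apply, LinearMap.comp_apply] at this
    rw [← this]
    exact congrArg F hy)

lemma hMap_bijective {e d : (ι → ℝ) →ₗ[ℝ] (ι → ℝ)} {e' d' : (κ → ℝ) →ₗ[ℝ] (κ → ℝ)}
    {F : (ι → ℝ) →ₗ[ℝ] (κ → ℝ)} (h : IsCh e d e' d' F) (hq : QisAt e d e' d' F) :
    Function.Bijective (hMap h) := by
  obtain ⟨h1, h2⟩ := hq
  constructor
  · intro a b hab
    obtain ⟨z, rfl⟩ := Submodule.Quotient.mk_surjective _ a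
    obtain ⟨z', rfl⟩ := Submodule.Quotient.mk_surjective _ b
    have hab' : (Submodule.Quotient.mk (zMap h z) : Hs e' d') = Submodule.Quotient.mk (zMap h z') :=
      hab
    rw [mk_eq] at hab'
    obtain ⟨y, hy⟩ := hab'
    rw [mk_eq]
    change d' y = F z.1 - F z'.1 at hy
    obtain ⟨w, hw⟩ := h1 (z.1 - z'.1) (by rw [map_sub, z.2.1, z'.2.1])
      (by rw [map_sub, z.2.2, z'.2.2, sub_zero]) ⟨y, by rw [map_sub, hy]⟩
    exact ⟨w, hw.symm⟩
  · intro b
    obtain ⟨z', rfl⟩ := Submodule.Quotient.mk_surjective _ b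
    obtain ⟨z, y, hz, hz', h3⟩ := h2 z'.1 z'.2.1 z'.2.2
    refine ⟨Submodule.Quotient.mk ⟨z, hz, hz'⟩, ?_⟩
    have h4 : (Submodule.Quotient.mk (zMap h ⟨z, hz, hz'⟩) : Hs e' d') =
        Submodule.Quotient.mk z' := by
      rw [mk_eq]
      refine ⟨-y, ?_⟩
      change d' (-y) = F z - z'.1
      rw [h3, map_neg]
      abel
    exact h4

end Coh

section Functor

variable {G : LieGpd}

lemma isCh {E E' : RuthU G} (f : RuthU.Hom E E') (x : G.Ob) :
    IsCh (E.e x) (E.R x []) (E'.e x) (E'.R x []) (f.F x []) := by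
  refine ⟨f.ok.F_left x [], ?_⟩
  have := f.ok.eqn x [] trivial
  simp only [List.length_nil, zero_add, Finset.range_one, Finset.sum_singleton, pow_zero,
    List.take_nil, List.drop_nil, one_smul, Nat.zero_sub, Finset.range_zero, Finset.sum_empty,
    add_zero, LieGpd.fin] at this
  exact this

/-- The fibre cohomology functor at `x`. -/
noncomputable def cohM (x : G.Ob) : RuthU G ⥤ ModuleCat ℝ where
  obj E := ModuleCat.of ℝ (Hs (E.e x) (E.R x []))
  map {E E'} f := ModuleCat.ofHom (hMap (isCh f x))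
  map_id E := by
    apply ModuleCat.hom_ext
    apply LinearMap.ext
    intro q
    obtain ⟨z, rfl⟩ := Submodule.Quotient.mk_surjective _ q
    have h4 : (Submodule.Quotient.mk (zMap (isCh (𝟙 E : RuthU.Hom E E) x) z) :
        Hs (E.e x) (E.R x [])) = Submodule.Quotient.mk z := by
      rw [mk_eq]
      refine ⟨0, ?_⟩
      change _ = E.e x z.1 - z.1
      rw [z.2.1]; simp
    exact h4
  map_comp {E E' E''} f g := by
    apply ModuleCat.hom_ext
    apply LinearMap.ext
    intro q
    obtain ⟨z, rfl⟩ := Submodule.Quotient.mk_surjective _ q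
    have h4 : (Submodule.Quotient.mk (zMap (isCh (f ≫ g : RuthU.Hom E E'') x) z) :
        Hs (E''.e x) (E''.R x [])) =
        Submodule.Quotient.mk (zMap (isCh (g : RuthU.Hom E' E'') x)
          (zMap (isCh (f : RuthU.Hom E E') x) z)) := by
      rw [mk_eq]
      refine ⟨0, ?_⟩
      change _ = starG G g.F f.F x [] z.1 - g.F x [] (f.F x [] z.1)
      simp [starG, LieGpd.fin]
    exact h4

lemma cohM_inverts (x : G.Ob) : (qisU G).IsInvertedBy (cohM x) := by
  intro E E' f hf
  have hb := hMap_bijective (isCh (f : RuthU.Hom E E') x) (hf x)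
  let Φ : Hs (E.e x) (E.R x []) ≃ₗ[ℝ] Hs (E'.e x) (E'.R x []) := LinearEquiv.ofBijective _ hb
  exact (inferInstance : IsIso (Φ.toModuleIso.hom))

end Functor

section Rank

variable {ι : Type}

/-- Idempotents which only involve the coordinates in `S`. -/
def Supp (S : Finset ι) (f : (ι → ℝ) →ₗ[ℝ] (ι → ℝ)) : Prop :=
  (∀ z, ∀ i, i ∉ S → f z i = 0) ∧ (∀ z, (∀ i ∈ S, z i = 0) → f z = 0)

variable [DecidableEq ι]

/-- Extension by zero. -/
noncomputable def ext0 (S : Finset ι) : (S → ℝ) →ₗ[ℝ] (ι → ℝ) where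
  toFun z := fun i => if h : i ∈ S then z ⟨i, h⟩ else 0
  map_add' a b := by
    funext i
    by_cases h : i ∈ S <;> simp [h]
  map_smul' c a := by
    funext i
    by_cases h : i ∈ S <;> simp [h]

/-- Restriction. -/
def res0 (S : Finset ι) : (ι → ℝ) →ₗ[ℝ] (S → ℝ) where
  toFun z := fun i => z i.1
  map_add' a b := rfl
  map_smul' c a := rfl

lemma ext0_res0 {S : Finset ι} {z : ι → ℝ} (hz : ∀ i, i ∉ S → z i = 0) :
    ext0 S (res0 S z) = z := by
  funext i
  by_cases h : i ∈ S
  · simp [ext0, res0, h]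
  · simp [ext0, h, hz i h]

lemma res0_ext0 {S : Finset ι} (z : S → ℝ) : res0 S (ext0 S z) = z := by
  funext i
  simp [ext0, res0]

lemma apply_res {S : Finset ι} {f : (ι → ℝ) →ₗ[ℝ] (ι → ℝ)} (hf : Supp S f) (z : ι → ℝ) :
    f (ext0 S (res0 S z)) = f z := by
  have h : f (ext0 S (res0 S z) - z) = 0 := hf.2 _ (fun i hi => by
    simp [ext0, res0, hi])
  rw [map_sub, sub_eq_zero] at h
  exact h

/-- The rank of an idempotent with support in `S` is its trace. -/
lemma rank_eq {S : Finset ι} {f : (ι → ℝ) →ₗ[ℝ] (ι → ℝ)} (hf : Supp S f) (hi : f ∘ₗ f = f) :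
    FiniteDimensional ℝ (LinearMap.range f) ∧
      (Module.finrank ℝ (LinearMap.range f) : ℝ) = ∑ i ∈ S, f (Pi.single i 1) i := by
  let g : (S → ℝ) →ₗ[ℝ] (S → ℝ) := res0 S ∘ₗ f ∘ₗ ext0 S
  have hfg : ∀ z, f (ext0 S z) = ext0 S (g z) := by
    intro z
    exact (ext0_res0 (fun i hi' => hf.1 _ i hi')).symm
  have hg : IsIdempotentElem g := by
    change g ∘ₗ g = g
    refine LinearMap.ext (fun z => ?_)
    change res0 S (f (ext0 S (g z))) = res0 S (f (ext0 S z))
    have h1 : f (f (ext0 S z)) = f (ext0 S z) := LinearMap.congr_fun hi _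
    rw [← hfg, h1]
  have e1 : LinearMap.range g ≃ₗ[ℝ] LinearMap.range f := by
    refine LinearEquiv.ofBijective (((ext0 S).restrict (p := LinearMap.range g)
      (q := LinearMap.range f) ?_)) ⟨?_, ?_⟩
    · rintro _ ⟨z, rfl⟩
      exact ⟨ext0 S z, hfg z⟩
    · rintro ⟨a, ha⟩ ⟨b, hb⟩ hab
      have h1 : ext0 S a = ext0 S b := congrArg Subtype.val hab
      apply Subtype.ext
      change a = b
      rw [← res0_ext0 a, ← res0_ext0 b, h1]
    · rintro ⟨_, ⟨z, rfl⟩⟩
      refine ⟨⟨g (res0 S z), ⟨_, rfl⟩⟩, ?_⟩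
      apply Subtype.ext
      change ext0 S (g (res0 S z)) = f z
      rw [← hfg, apply_res hf]
  refine ⟨Module.Finite.equiv e1, ?_⟩
  rw [← e1.finrank_eq, ← (LinearMap.IsIdempotentElem.isProj_range g hg).trace,
    LinearMap.trace_eq_matrix_trace ℝ (Pi.basisFun ℝ S),
    Matrix.trace, ← Finset.sum_coe_sort S]
  refine Finset.sum_congr rfl (fun i _ => ?_)
  rw [Matrix.diag_apply, LinearMap.toMatrix_apply, Pi.basisFun_repr, Pi.basisFun_apply]
  change f (ext0 S (Pi.single i 1)) i.1 = _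
  have h0 : ext0 S (Pi.single i 1) = Pi.single i.1 1 := ?_
  · rw [h0]
  funext j
  by_cases hj : j = i.1
  · subst hj
    simp [ext0]
  · by_cases hjS : j ∈ S
    · have : (⟨j, hjS⟩ : S) ≠ i := fun h => hj (congrArg Subtype.val h)
      simp [ext0, hjS, hj, this]
    · simp [ext0, hjS, hj]

/-- The rank of a locally finite continuous family of idempotents is constant on a preconnected
space. -/
lemma rank_const {X : Type} [TopologicalSpace X] [PreconnectedSpace X]
    {e : X → (ι → ℝ) →ₗ[ℝ] (ι → ℝ)} (hid : ∀ x, e x ∘ₗ e x = e x)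
    (hfin : ∀ x, ∃ S : Finset ι, ∀ᶠ y in 𝓝 x, Supp S (e y))
    (hc : ∀ i j, Continuous (fun x => e x (Pi.single j 1) i)) (x y : X) :
    Module.finrank ℝ (LinearMap.range (e x)) = Module.finrank ℝ (LinearMap.range (e y)) := by
  have hloc : IsLocallyConstant (fun x => Module.finrank ℝ (LinearMap.range (e x))) := by
    rw [IsLocallyConstant.iff_eventually_eq]
    intro x
    obtain ⟨S, hS⟩ := hfin x
    have h1 : Continuous (fun y => ∑ i ∈ S, e y (Pi.single i 1) i) :=
      continuous_finsetSum _ (fun i _ => hc i i)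
    have h2 := (h1.tendsto x).eventually (Metric.ball_mem_nhds _ one_pos)
    filter_upwards [hS, h2] with y hy hy2
    have hx := hS.self_of_nhds
    rw [← (rank_eq hx (hid x)).2, ← (rank_eq hy (hid y)).2, Real.dist_eq] at hy2
    have h3 : |((Module.finrank ℝ (LinearMap.range (e y)) : ℤ) : ℤ) -
        (Module.finrank ℝ (LinearMap.range (e x)) : ℤ)| < 1 := by
      exact_mod_cast hy2
    have h4 := Int.abs_lt_one_iff.1 h3
    have h5 : (Module.finrank ℝ (LinearMap.range (e y)) : ℤ) =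
      Module.finrank ℝ (LinearMap.range (e x)) := by linarith
    exact_mod_cast h5
  exact hloc.apply_eq_of_isPreconnected isPreconnected_univ (Set.mem_univ _) (Set.mem_univ _)

omit [DecidableEq ι] in
/-- The cohomology is at most as large as the bundle. -/
lemma finrank_Hs_le {e d : (ι → ℝ) →ₗ[ℝ] (ι → ℝ)} [FiniteDimensional ℝ (LinearMap.range e)] :
    FiniteDimensional ℝ (Hs e d) ∧
      Module.finrank ℝ (Hs e d) ≤ Module.finrank ℝ (LinearMap.range e) := by
  have h1 : Zs e d ≤ LinearMap.range e := fun z hz => ⟨z, hz.1⟩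
  have h2 : FiniteDimensional ℝ (Zs e d) := Submodule.finiteDimensional_of_le h1
  exact ⟨inferInstance, (Submodule.finrank_quotient_le _).trans (Submodule.finrank_mono h1)⟩

end Rank

/-- **UEX** (the example).  `G` = the unit groupoid of `ℝ`; `G'` = the submersion groupoid of the
projection `(x, y) ↦ x` of the open set `Ω = {(x, y) | y ∉ ℤ, |x - ⌊y⌋| < 1}` of the plane. -/
def SpecUEX : Prop :=
  ∃ (G' G : LieGpd) (φ : Hypercover G' G) (ι : Type) (_ : DecidableEq ι) (deg : ι → ℤ)
    (e : G'.Ob → (ι → ℝ) →ₗ[ℝ] (ι → ℝ)) (R : G'.Ob → List G'.Ar → (ι → ℝ) →ₗ[ℝ] (ι → ℝ)),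
    IsRuthU G' deg e R ∧ PreconnectedSpace G.Ob ∧
    ∀ n : ℕ, ∃ (p : G'.Ob) (w : Fin n → (ι → ℝ)), (∀ i, e p (w i) = w i ∧ R p [] (w i) = 0) ∧
      ∀ c : Fin n → ℝ, (∃ y, ∑ i, c i • w i = R p [] y) → c = 0

/-- Bundles of unbounded rank: the pullback functor between the localised categories is not always
an equivalence. -/
theorem negU (hUEX : SpecUEX) : ∃ (G' G : LieGpd) (φ : Hypercover G' G),
    ¬ ((pullLMU φ).localizedFunctor (qisU G).Q (qisU G').Q).IsEquivalence := by
  obtain ⟨G', G, φ, ι, _, deg, e, R, hR, hconn, hex⟩ := hUEX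
  refine ⟨G', G, φ, fun hE => ?_⟩
  let E' : RuthU G' := ⟨ι, deg, e, R, hR⟩
  let Φ := (pullLMU φ).localizedFunctor (qisU G).Q (qisU G').Q
  have hsurj : Φ.EssSurj := hE.essSurj
  let X := Φ.objPreimage ((qisU G').Q.obj E')
  have iX : Φ.obj X ≅ (qisU G').Q.obj E' := Φ.objObjPreimageIso _
  have hQ : (qisU G).Q.EssSurj := Localization.essSurj (qisU G).Q (qisU G)
  let E := (qisU G).Q.objPreimage X
  have iE : (qisU G).Q.obj E ≅ X := (qisU G).Q.objObjPreimageIso X
  have i1 : (qisU G').Q.obj ((pullU φ).obj E) ≅ (qisU G').Q.obj E' :=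
    (((pullLMU φ).catCommSq (qisU G).Q (qisU G').Q).iso.app E) ≪≫ Φ.mapIso iE ≪≫ iX
  have key : ∀ x, Nonempty ((cohM x).obj ((pullU φ).obj E) ≅ (cohM x).obj E') := by
    intro x
    let L := Localization.lift (cohM x) (cohM_inverts x) (qisU G').Q
    have iL : (qisU G').Q ⋙ L ≅ cohM x := Localization.Lifting.iso _ (qisU G') _ _
    exact ⟨(iL.app _).symm ≪≫ L.mapIso i1 ≪≫ iL.app _⟩
  have hfd : ∀ y, FiniteDimensional ℝ (LinearMap.range (E.e y)) := by
    intro y
    obtain ⟨S, hS⟩ := E.ok.e_fin y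
    exact (rank_eq (f := E.e y) hS.self_of_nhds (E.ok.e_idem y)).1
  obtain ⟨p₀, -⟩ := hex 0
  obtain ⟨p, w, hw, hc⟩ := hex (Module.finrank ℝ (LinearMap.range (E.e (φ.ob p₀))) + 1)
  obtain ⟨j⟩ := key p
  have jl : Hs (E.e (φ.ob p)) (pullG φ E.R p []) ≃ₗ[ℝ] Hs (e p) (R p []) := j.toLinearEquiv
  rw [pullG_nil] at jl
  have hfp := hfd (φ.ob p)
  obtain ⟨f1, f2⟩ := finrank_Hs_le (e := E.e (φ.ob p)) (d := E.R (φ.ob p) [])
  have hrc := rank_const (e := E.e) E.ok.e_idem E.ok.e_fin
    (fun i j => (E.ok.e_smooth i j).continuous) (φ.ob p) (φ.ob p₀)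
  have f3 : FiniteDimensional ℝ (Hs (e p) (R p [])) := Module.Finite.equiv jl
  have hli : LinearIndependent ℝ
      (fun i => (Submodule.Quotient.mk ⟨w i, hw i⟩ : Hs (e p) (R p []))) := by
    rw [Fintype.linearIndependent_iff]
    intro c hc0
    have h1 : (Submodule.Quotient.mk (∑ i, c i • (⟨w i, hw i⟩ : Zs (e p) (R p []))) :
        Hs (e p) (R p [])) = Submodule.Quotient.mk 0 := by
      have h2 : (Bs (e p) (R p [])).mkQ (∑ i, c i • (⟨w i, hw i⟩ : Zs (e p) (R p []))) = 0 := by
        rw [map_sum, ← hc0]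
        refine Finset.sum_congr rfl (fun i _ => ?_)
        rw [map_smul]
        rfl
      exact h2
    rw [mk_eq] at h1
    obtain ⟨y, hy⟩ := h1
    have h3 := hc c ⟨y, by
      rw [hy]
      simp⟩
    intro i
    rw [h3]
    rfl
  have h5 := hli.fintype_card_le_finrank
  rw [Fintype.card_fin, ← jl.finrank_eq] at h5
  omega

end Pool.Agent.Lib.MP_9b987c_gt.HC.UR
end

section
/-!
# UEX: the groupoids

`lineU` is the unit groupoid of the line, `omG` the submersion groupoid of the first projection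
`(x, y) ↦ x` of the open set `Ω = {(x, y) | y ∉ ℤ, |x - ⌊y⌋| < 1}` of the plane.
-/
namespace Pool.Agent.Lib.MP_9b987c_gt.HC.UR

open scoped Manifold ContDiff BigOperators Topology
open TopologicalSpace NU.NEXM

namespace UEXM

/-- A point of space. -/
noncomputable def mk3 (a b c : ℝ) : Eu 3 := WithLp.toLp 2 ![a, b, c]

@[simp] theorem mk3_zero (a b c : ℝ) : mk3 a b c 0 = a := rfl
@[simp] theorem mk3_one (a b c : ℝ) : mk3 a b c 1 = b := rfl
@[simp] theorem mk3_two (a b c : ℝ) : mk3 a b c 2 = c := rfl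

theorem mk3_eta (x : Eu 3) : mk3 (x 0) (x 1) (x 2) = x := by
  ext i
  fin_cases i <;> rfl

theorem ext2 {x y : Eu 2} (h0 : x 0 = y 0) (h1 : x 1 = y 1) : x = y := by
  rw [← mk2_eta x, ← mk2_eta y, h0, h1]

theorem ext3 {x y : Eu 3} (h0 : x 0 = y 0) (h1 : x 1 = y 1) (h2 : x 2 = y 2) : x = y := by
  rw [← mk3_eta x, ← mk3_eta y, h0, h1, h2]

theorem ext1 {x y : Eu 1} (h0 : x 0 = y 0) : x = y := by
  rw [← mk1_eta x, ← mk1_eta y, h0]

theorem cont_coord {n : ℕ} (i : Fin n) : Continuous (fun u : Eu n => u i) :=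
  (cproj n i).continuous

/-- The set of pairs `(a, b)` with `b ∉ ℤ`, `|a - ⌊b⌋| < 1`. -/
def Om (a b : ℝ) : Prop := ∃ n : ℤ, (n : ℝ) < b ∧ b < n + 1 ∧ (n : ℝ) - 1 < a ∧ a < n + 1

theorem isOpen_Om {X : Type*} [TopologicalSpace X] {f g : X → ℝ} (hf : Continuous f)
    (hg : Continuous g) : IsOpen {x | Om (f x) (g x)} := by
  have : {x | Om (f x) (g x)} = ⋃ n : ℤ, {x | (n : ℝ) < g x ∧ g x < n + 1 ∧ (n : ℝ) - 1 < f x ∧
      f x < n + 1} := by
    ext x
    simp [Om]
  rw [this]
  refine isOpen_iUnion (fun n => ?_)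
  exact (isOpen_lt continuous_const hg).inter ((isOpen_lt hg continuous_const).inter
    ((isOpen_lt continuous_const hf).inter (isOpen_lt hf continuous_const)))

/-- `Ω` in the plane. -/
def Om2 : Opens (Eu 2) := ⟨{p | Om (p 0) (p 1)}, isOpen_Om (cont_coord 0) (cont_coord 1)⟩

/-- `Ω ×_ℝ Ω` in space. -/
def Om3 : Opens (Eu 3) := ⟨{p | Om (p 0) (p 1) ∧ Om (p 0) (p 2)},
  (isOpen_Om (cont_coord 0) (cont_coord 1)).inter (isOpen_Om (cont_coord 0) (cont_coord 2))⟩

theorem om_smooth_iff {d n : ℕ} {W : Opens (Eu n)} {U : Set (Eu d)} {f : Eu d → W} :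
    ContMDiffOn (𝓡 d) (𝓡 n) ∞ f U ↔ ∀ i, ContDiffOn ℝ ∞ (fun u => (f u).1 i) U := by
  have h : ContMDiffOn (𝓡 d) (𝓡 n) ∞ f U ↔
      ContMDiffOn (𝓡 d) (𝓡 n) ∞ (fun u => (f u).1) U := by
    constructor
    · intro h x hx
      exact (ContMDiffWithinAt.subtypeVal_comp_iff W f U x).2 (h x hx)
    · intro h x hx
      exact (ContMDiffWithinAt.subtypeVal_comp_iff W f U x).1 (h x hx)
  rw [h]
  exact cd

/-- Smooth maps between open sets. -/
theorem om_smooth {k n : ℕ} {W : Opens (Eu k)} {W' : Opens (Eu n)} {f : W → W'}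
    (F : Eu k → Eu n) (hF : ∀ i, ContDiff ℝ ∞ (fun u => F u i)) (h : ∀ p, (f p).1 = F p.1) :
    ContMDiff (𝓡 k) (𝓡 n) ∞ f := by
  rw [← ContMDiff.subtypeVal_comp_iff]
  have h1 : (Subtype.val ∘ f : W → Eu n) = F ∘ Subtype.val := funext h
  rw [h1]
  exact (cg hF).comp contMDiff_subtype_val

theorem om_smooth' {k n : ℕ} {W : Opens (Eu k)} {f : W → Eu n}
    (F : Eu k → Eu n) (hF : ∀ i, ContDiff ℝ ∞ (fun u => F u i)) (h : ∀ p, f p = F p.1) :
    ContMDiff (𝓡 k) (𝓡 n) ∞ f := by
  have h1 : f = F ∘ Subtype.val := funext h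
  rw [h1]
  exact (cg hF).comp contMDiff_subtype_val

/-- Linear surjections restricted to open sets are submersions. -/
theorem om_subm {n m : ℕ} {F : Type} [NormedAddCommGroup F] [NormedSpace ℝ F]
    {W : Opens (Eu n)} {W' : Opens (Eu m)} (e : Eu n ≃L[ℝ] (Eu m × F)) {f : W → W'}
    (hf : ∀ p, (f p).1 = (e p.1).1) : Manifold.IsSubmersion (𝓡 n) (𝓡 m) ∞ f := by
  refine Manifold.IsSubmersionOfComplement.isSubmersion (F := F) ?_
  intro x
  refine Manifold.IsSubmersionAtOfComplement.mk_of_charts e (chartAt _ x) (chartAt _ (f x))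
    (mem_chart_source _ x) (mem_chart_source _ _) (IsManifold.chart_mem_maximalAtlas x)
    (IsManifold.chart_mem_maximalAtlas _) ?_ ?_
  · intro y _
    refine ⟨trivial, ?_⟩
    exact Set.mem_univ _
  · intro y hy
    have h1 := ((chartAt (Eu n) x).extend (𝓡 n)).right_inv hy
    have h2 : (((chartAt (Eu n) x).extend (𝓡 n)).symm y).1 = y := h1
    change (f (((chartAt (Eu n) x).extend (𝓡 n)).symm y)).1 = (e y).1
    rw [hf, h2]

/-- The same, into Euclidean space. -/
theorem om_subm' {n m : ℕ} {F : Type} [NormedAddCommGroup F] [NormedSpace ℝ F]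
    {W : Opens (Eu n)} (e : Eu n ≃L[ℝ] (Eu m × F)) {f : W → Eu m}
    (hf : ∀ p, f p = (e p.1).1) : Manifold.IsSubmersion (𝓡 n) (𝓡 m) ∞ f := by
  refine Manifold.IsSubmersionOfComplement.isSubmersion (F := F) ?_
  intro x
  refine Manifold.IsSubmersionAtOfComplement.mk_of_charts e (chartAt _ x) (chartAt _ (f x))
    (mem_chart_source _ x) (mem_chart_source _ _) (IsManifold.chart_mem_maximalAtlas x)
    (IsManifold.chart_mem_maximalAtlas _) ?_ ?_
  · intro y _
    exact Set.mem_univ _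
  · intro y hy
    have h1 := ((chartAt (Eu n) x).extend (𝓡 n)).right_inv hy
    have h2 : (((chartAt (Eu n) x).extend (𝓡 n)).symm y).1 = y := h1
    change f (((chartAt (Eu n) x).extend (𝓡 n)).symm y) = (e y).1
    rw [hf, h2]

/-- Coordinates `(x, y)` and `y'` of `(x, y, y')`. -/
noncomputable def eq3 : Eu 3 ≃L[ℝ] (Eu 2 × Eu 1) :=
  LinearEquiv.toContinuousLinearEquiv
    { toFun := fun x => (mk2 (x 0) (x 1), mk1 (x 2))
      invFun := fun p => mk3 (p.1 0) (p.1 1) (p.2 0)
      map_add' := fun x y => by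
        refine Prod.ext ?_ ?_ <;> ext i <;> simp
        fin_cases i <;> simp
      map_smul' := fun c x => by
        refine Prod.ext ?_ ?_ <;> ext i <;> simp
        fin_cases i <;> simp
      left_inv := fun x => mk3_eta x
      right_inv := fun p => by
        refine Prod.ext ?_ ?_
        · exact mk2_eta p.1
        · exact mk1_eta p.2 }

/-- Coordinates `(x, y')` and `y` of `(x, y, y')`. -/
noncomputable def eq3' : Eu 3 ≃L[ℝ] (Eu 2 × Eu 1) :=
  LinearEquiv.toContinuousLinearEquiv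
    { toFun := fun x => (mk2 (x 0) (x 2), mk1 (x 1))
      invFun := fun p => mk3 (p.1 0) (p.2 0) (p.1 1)
      map_add' := fun x y => by
        refine Prod.ext ?_ ?_ <;> ext i <;> simp
        fin_cases i <;> simp
      map_smul' := fun c x => by
        refine Prod.ext ?_ ?_ <;> ext i <;> simp
        fin_cases i <;> simp
      left_inv := fun x => mk3_eta x
      right_inv := fun p => by
        refine Prod.ext ?_ ?_
        · exact mk2_eta p.1
        · exact mk1_eta p.2 }

/-- The unit groupoid of the line. -/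
noncomputable abbrev lineU : LieGpd where
  m := 1
  n := 1
  Ob := Eu 1
  Ar := Eu 1
  src := id
  tgt := id
  one := id
  inv := id
  mul := fun g _ => g
  src_surj := Function.surjective_id
  tgt_surj := Function.surjective_id
  src_subm := Manifold.IsSubmersion.id
  tgt_subm := Manifold.IsSubmersion.id
  one_smooth := contMDiff_id
  inv_smooth := contMDiff_id
  mul_smooth := fun _ _ _ _ _ ha _ _ => ha
  src_one := fun _ => rfl
  tgt_one := fun _ => rfl
  src_inv := fun _ => rfl
  tgt_inv := fun _ => rfl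
  src_mul := fun _ _ h => h
  tgt_mul := fun _ _ _ => rfl
  mul_assoc := fun _ _ _ _ _ => rfl
  one_mul := fun _ => rfl
  mul_one := fun _ => rfl
  inv_mul := fun _ => rfl
  mul_inv := fun _ => rfl

open Classical in
/-- The multiplication of `omG`. -/
noncomputable def omMul (g h : Om3) : Om3 :=
  if hh : Om (g.1 0) (h.1 2) then ⟨mk3 (g.1 0) (g.1 1) (h.1 2), g.2.1, hh⟩ else g

/-- Source. -/
noncomputable def omSrc (g : Om3) : Om2 := ⟨mk2 (g.1 0) (g.1 2), g.2.2⟩
/-- Target. -/
noncomputable def omTgt (g : Om3) : Om2 := ⟨mk2 (g.1 0) (g.1 1), g.2.1⟩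
/-- Units. -/
noncomputable def omOne (p : Om2) : Om3 := ⟨mk3 (p.1 0) (p.1 1) (p.1 1), p.2, p.2⟩
/-- Inverse. -/
noncomputable def omInv (g : Om3) : Om3 := ⟨mk3 (g.1 0) (g.1 2) (g.1 1), g.2.2, g.2.1⟩

theorem comp_iff {g h : Om3} : omSrc g = omTgt h ↔ g.1 0 = h.1 0 ∧ g.1 2 = h.1 1 := by
  constructor
  · intro H
    have H1 : mk2 (g.1 0) (g.1 2) = mk2 (h.1 0) (h.1 1) := congrArg Subtype.val H
    exact ⟨congrArg (fun z : Eu 2 => z 0) H1, congrArg (fun z : Eu 2 => z 1) H1⟩
  · rintro ⟨h1, h2⟩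
    apply Subtype.ext
    change mk2 (g.1 0) (g.1 2) = mk2 (h.1 0) (h.1 1)
    rw [h1, h2]

theorem omMul_val {g h : Om3} (H : omSrc g = omTgt h) :
    (omMul g h).1 = mk3 (g.1 0) (g.1 1) (h.1 2) := by
  have hh : Om (g.1 0) (h.1 2) := by
    rw [(comp_iff.1 H).1]
    exact h.2.2
  rw [omMul, dif_pos hh]

/-- The submersion groupoid of `Ω → ℝ`. -/
noncomputable abbrev omG : LieGpd where
  m := 2
  n := 3
  Ob := Om2
  Ar := Om3
  src := omSrc
  tgt := omTgt
  one := omOne
  inv := omInv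
  mul := omMul
  src_surj := fun x => ⟨⟨mk3 (x.1 0) (x.1 1) (x.1 1), x.2, x.2⟩, Subtype.ext (mk2_eta x.1)⟩
  tgt_surj := fun x => ⟨⟨mk3 (x.1 0) (x.1 1) (x.1 1), x.2, x.2⟩, Subtype.ext (mk2_eta x.1)⟩
  src_subm := om_subm eq3' (fun _ => rfl)
  tgt_subm := om_subm eq3 (fun _ => rfl)
  one_smooth := om_smooth (fun p => mk3 (p 0) (p 1) (p 1)) (fun i => by
    fin_cases i
    · exact cproj 2 0
    · exact cproj 2 1
    · exact cproj 2 1) (fun _ => rfl)
  inv_smooth := om_smooth (fun p => mk3 (p 0) (p 2) (p 1)) (fun i => by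
    fin_cases i
    · exact cproj 3 0
    · exact cproj 3 2
    · exact cproj 3 1) (fun _ => rfl)
  mul_smooth := fun d U a b _ ha hb hab => om_smooth_iff.2 fun i => by
    have ha' := om_smooth_iff.1 ha
    have hb' := om_smooth_iff.1 hb
    have h1 : ∀ u ∈ U, (omMul (a u) (b u)).1 = mk3 ((a u).1 0) ((a u).1 1) ((b u).1 2) :=
      fun u hu => omMul_val (hab u hu)
    fin_cases i
    · exact (ha' 0).congr (fun u hu => by
        change (omMul (a u) (b u)).1 0 = _
        rw [h1 u hu]; rfl)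
    · exact (ha' 1).congr (fun u hu => by
        change (omMul (a u) (b u)).1 1 = _
        rw [h1 u hu]; rfl)
    · exact (hb' 2).congr (fun u hu => by
        change (omMul (a u) (b u)).1 2 = _
        rw [h1 u hu]; rfl)
  src_one := fun x => Subtype.ext (mk2_eta x.1)
  tgt_one := fun x => Subtype.ext (mk2_eta x.1)
  src_inv := fun _ => rfl
  tgt_inv := fun _ => rfl
  src_mul := fun g h H => by
    apply Subtype.ext
    change mk2 ((omMul g h).1 0) ((omMul g h).1 2) = mk2 (h.1 0) (h.1 2)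
    rw [omMul_val H, ← (comp_iff.1 H).1]
    rfl
  tgt_mul := fun g h H => by
    apply Subtype.ext
    change mk2 ((omMul g h).1 0) ((omMul g h).1 1) = mk2 (g.1 0) (g.1 1)
    rw [omMul_val H]
    rfl
  mul_assoc := fun g h k H H' => by
    have e1 : omSrc (omMul g h) = omTgt k := by
      rw [comp_iff, omMul_val H]
      exact ⟨(comp_iff.1 H).1.trans (comp_iff.1 H').1, (comp_iff.1 H').2⟩
    have e2 : omSrc g = omTgt (omMul h k) := by
      rw [comp_iff, omMul_val H']
      exact comp_iff.1 H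
    apply Subtype.ext
    rw [omMul_val e1, omMul_val e2, omMul_val H, omMul_val H']
    rfl
  one_mul := fun g => by
    have e1 : omSrc (omOne (omTgt g)) = omTgt g := Subtype.ext (mk2_eta (omTgt g).1)
    apply Subtype.ext
    rw [omMul_val e1]
    exact mk3_eta g.1
  mul_one := fun g => by
    have e1 : omSrc g = omTgt (omOne (omSrc g)) := Subtype.ext (mk2_eta (omSrc g).1).symm
    apply Subtype.ext
    rw [omMul_val e1]
    exact mk3_eta g.1
  inv_mul := fun g => by
    have e1 : omSrc (omInv g) = omTgt g := rfl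
    apply Subtype.ext
    rw [omMul_val e1]
    rfl
  mul_inv := fun g => by
    have e1 : omSrc g = omTgt (omInv g) := rfl
    apply Subtype.ext
    rw [omMul_val e1]
    rfl

/-- The hypercover. -/
noncomputable def omCov : Hypercover omG lineU where
  ob := fun p => mk1 (p.1 0)
  ar := fun g => mk1 (g.1 0)
  ob_subm := om_subm' eqv (fun _ => rfl)
  ob_surj := fun (y : Eu 1) => by
    refine ⟨⟨mk2 (y 0) (⌊y 0⌋ + 1 / 2), ⌊y 0⌋, ?_, ?_, ?_, ?_⟩, mk1_eta y⟩
    · change (⌊y 0⌋ : ℝ) < ⌊y 0⌋ + 1 / 2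
      linarith
    · change (⌊y 0⌋ : ℝ) + 1 / 2 < ⌊y 0⌋ + 1
      linarith
    · change (⌊y 0⌋ : ℝ) - 1 < y 0
      linarith [Int.floor_le (y 0)]
    · change y 0 < (⌊y 0⌋ : ℝ) + 1
      exact Int.lt_floor_add_one _
  ar_smooth := om_smooth' (fun p => mk1 (p 0)) (fun _ => cproj 3 0) (fun _ => rfl)
  src_ar := fun _ => rfl
  tgt_ar := fun _ => rfl
  ar_one := fun _ => rfl
  ar_mul := fun g h H => by
    change mk1 ((omMul g h).1 0) = mk1 (g.1 0)
    rw [omMul_val H]
    rfl
  cart := fun (y' : Om2) (g : Eu 1) (x' : Om2) h1 h2 => by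
    have h3 : y'.1 0 = g 0 := congrArg (fun z : Eu 1 => z 0) h1
    have h4 : x'.1 0 = g 0 := congrArg (fun z : Eu 1 => z 0) h2
    have k1 : Om (g 0) (y'.1 1) := by rw [← h3]; exact y'.2
    have k2 : Om (g 0) (x'.1 1) := by rw [← h4]; exact x'.2
    refine ⟨⟨mk3 (g 0) (y'.1 1) (x'.1 1), k1, k2⟩, ⟨?_, ?_, ?_⟩, ?_⟩
    · exact Subtype.ext (ext2 h3.symm rfl)
    · exact Subtype.ext (ext2 h4.symm rfl)
    · exact mk1_eta g
    · rintro (g' : Om3) ⟨q1, q2, q3⟩
      have r1 : mk2 (g'.1 0) (g'.1 1) = y'.1 := congrArg Subtype.val q1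
      have r2 : mk2 (g'.1 0) (g'.1 2) = x'.1 := congrArg Subtype.val q2
      have r3 : g'.1 0 = g 0 := congrArg (fun z : Eu 1 => z 0) q3
      exact Subtype.ext (ext3 r3 (congrArg (fun z : Eu 2 => z 1) r1)
        (congrArg (fun z : Eu 2 => z 1) r2))
  cart_smooth := fun d U g' _ h1 h2 _ => om_smooth_iff.2 fun i => by
    have h1' := om_smooth_iff.1 h1
    have h2' := om_smooth_iff.1 h2
    fin_cases i
    · exact h1' 0
    · exact h1' 1
    · exact h2' 1

end UEXM

end Pool.Agent.Lib.MP_9b987c_gt.HC.UR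
end

section
/-!
# UEX: the representation up to homotopy of unbounded rank
-/
namespace Pool.Agent.Lib.MP_9b987c_gt.HC.UR

open scoped Manifold ContDiff BigOperators Topology
open TopologicalSpace NU.NEXM

namespace UEXM

/-- The index set: two copies of `ℕ`. -/
abbrev Ix : Type := ℕ × Bool

/-- The degrees: `0` on the first copy, `1` on the second. -/
def dg (i : Ix) : ℤ := if i.2 then 1 else 0

/-- Projection to the coordinates `(i, a)`, `i < n`. -/
noncomputable def em (n : ℤ) : (Ix → ℝ) →ₗ[ℝ] (Ix → ℝ) where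
  toFun z := fun i => if (i.1 : ℤ) < n then z i else 0
  map_add' a b := by
    funext i
    by_cases h : (i.1 : ℤ) < n <;> simp [h]
  map_smul' c a := by
    funext i
    by_cases h : (i.1 : ℤ) < n <;> simp [h]

/-- The differential. -/
def DD' : (Ix → ℝ) →ₗ[ℝ] (Ix → ℝ) where
  toFun z := fun i => if i.2 then z (i.1, false) else 0
  map_add' a b := by
    funext i
    by_cases h : i.2 <;> simp [h]
  map_smul' c a := by
    funext i
    by_cases h : i.2 <;> simp [h]

/-- The contraction. -/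
def KK : (Ix → ℝ) →ₗ[ℝ] (Ix → ℝ) where
  toFun z := fun i => if i.2 then 0 else z (i.1, true)
  map_add' a b := by
    funext i
    by_cases h : i.2 <;> simp [h]
  map_smul' c a := by
    funext i
    by_cases h : i.2 <;> simp [h]

theorem em_apply (n : ℤ) (z : Ix → ℝ) (i : Ix) : em n z i = if (i.1 : ℤ) < n then z i else 0 := rfl
theorem D_apply (z : Ix → ℝ) (i : Ix) : DD' z i = if i.2 then z (i.1, false) else 0 := rfl
theorem K_apply (z : Ix → ℝ) (i : Ix) : KK z i = if i.2 then 0 else z (i.1, true) := rfl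

theorem em_em (n : ℤ) : em n ∘ₗ em n = em n := by
  refine LinearMap.ext fun z => funext fun i => ?_
  simp only [LinearMap.comp_apply, em_apply]
  split_ifs <;> rfl

theorem em_D (n : ℤ) : em n ∘ₗ DD' = DD' ∘ₗ em n := by
  refine LinearMap.ext fun z => funext fun i => ?_
  simp only [LinearMap.comp_apply, em_apply, D_apply]
  split_ifs <;> rfl

theorem em_K (n : ℤ) : em n ∘ₗ KK = KK ∘ₗ em n := by
  refine LinearMap.ext fun z => funext fun i => ?_
  simp only [LinearMap.comp_apply, em_apply, K_apply]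
  split_ifs <;> rfl

theorem D_D : DD' ∘ₗ DD' = 0 := by
  refine LinearMap.ext fun z => funext fun i => ?_
  simp [D_apply]

theorem K_K : KK ∘ₗ KK = 0 := by
  refine LinearMap.ext fun z => funext fun i => ?_
  simp [K_apply]

theorem D_K : DD' ∘ₗ KK + KK ∘ₗ DD' = LinearMap.id := by
  refine LinearMap.ext fun z => funext fun i => ?_
  obtain ⟨i, a⟩ := i
  cases a <;> simp [K_apply, D_apply]

theorem deg_em (n : ℤ) : Deg dg dg (em n) 0 := by
  intro q z hz i hi
  rw [em_apply] at hi
  split_ifs at hi with h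
  · rw [add_zero]; exact hz i hi
  · exact absurd rfl hi

theorem deg_D : Deg dg dg DD' 1 := by
  intro q z hz i hi
  rw [D_apply] at hi
  split_ifs at hi with h
  · have := hz _ hi
    simp only [dg, Bool.false_eq_true, if_false] at this
    simp only [dg, h, if_true, ← this]
    norm_num
  · exact absurd rfl hi

theorem deg_K : Deg dg dg KK (-1) := by
  intro q z hz i hi
  rw [K_apply] at hi
  split_ifs at hi with h
  · exact absurd rfl hi
  · have := hz _ hi
    simp only [dg, if_true] at this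
    simp only [dg, h, ← this]
    norm_num

/-- The number of the component. -/
noncomputable def nn (p : Om2) : ℤ := ⌊p.1 1⌋

theorem nn_spec (p : Om2) : (nn p : ℝ) < p.1 1 ∧ p.1 1 < nn p + 1 ∧ (nn p : ℝ) - 1 < p.1 0 ∧
    p.1 0 < nn p + 1 := by
  obtain ⟨n, h1, h2, h3, h4⟩ := p.2
  have : nn p = n := by
    rw [nn, Int.floor_eq_iff]
    exact ⟨h1.le, h2⟩
  rw [this]
  exact ⟨h1, h2, h3, h4⟩

theorem nn_locconst (p : Om2) : ∀ᶠ q in 𝓝 p, nn q = nn p := by
  have hc : Continuous (fun q : Om2 => q.1 1) := (cont_coord 1).comp continuous_subtype_val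
  have h := nn_spec p
  have h1 := (hc.tendsto p).eventually (isOpen_Ioo.mem_nhds (show p.1 1 ∈ Set.Ioo (nn p : ℝ)
    (nn p + 1) from ⟨h.1, h.2.1⟩))
  filter_upwards [h1] with q hq
  rw [nn, Int.floor_eq_iff]
  exact ⟨hq.1.le, hq.2⟩

theorem nn_ne {p q : Om2} (h : p.1 0 = q.1 0) (hn : nn p ≠ nn q) : p.1 0 - nn p ≠ 0 := by
  intro h0
  have h1 := nn_spec q
  have h2 : q.1 0 = nn p := by rw [← h]; linarith
  rw [h2] at h1
  apply hn
  have h3 : (nn q : ℝ) - 1 < nn p := h1.2.2.1
  have h4 : (nn p : ℝ) < nn q + 1 := h1.2.2.2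
  have h3' : nn q - 1 < nn p := by exact_mod_cast h3
  have h4' : nn p < nn q + 1 := by exact_mod_cast h4
  omega

/-- `x - n` on the component number `n`. -/
noncomputable def cc (p : Om2) : ℝ := p.1 0 - nn p

open Classical in
/-- The structure operators. -/
noncomputable def RR : Om2 → List Om3 → (Ix → ℝ) →ₗ[ℝ] (Ix → ℝ)
  | p, [] => cc p • (em (nn p) ∘ₗ DD')
  | p, [g] => if omTgt g = p ∧ nn p = nn (omSrc g) then em (nn p) else 0
  | p, [g, h] => if (omTgt g = p ∧ omTgt h = omSrc g) ∧ nn p = nn (omSrc h) ∧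
      nn p ≠ nn (omSrc g) then -((cc p)⁻¹ • (em (nn p) ∘ₗ KK)) else 0
  | _, _ :: _ :: _ :: _ => 0

theorem RR_nil (p : Om2) : RR p [] = cc p • (em (nn p) ∘ₗ DD') := rfl

theorem RR_one {p : Om2} {g : Om3} (h : omTgt g = p) :
    RR p [g] = if nn p = nn (omSrc g) then em (nn p) else 0 := by
  classical
  simp only [RR, h, true_and]

theorem RR_two {p : Om2} {g h : Om3} (h1 : omTgt g = p) (h2 : omTgt h = omSrc g) :
    RR p [g, h] = if nn p = nn (omSrc h) ∧ nn p ≠ nn (omSrc g) then
      -((cc p)⁻¹ • (em (nn p) ∘ₗ KK)) else 0 := by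
  classical
  simp only [RR, h1, h2, true_and]

theorem RR_long {p : Om2} {l : List Om3} (h : 3 ≤ l.length) : RR p l = 0 := by
  match l, h with
  | _ :: _ :: _ :: _, _ => rfl

theorem RR_zero (p : Om2) (l : List Om3) (h : ¬ omG.Chain p l) : RR p l = 0 := by
  classical
  match l with
  | [] => exact absurd trivial h
  | [g] =>
    rw [RR, if_neg]
    rintro ⟨h1, -⟩
    exact h ⟨h1, trivial⟩
  | [g, k] =>
    rw [RR, if_neg]
    rintro ⟨⟨h1, h2⟩, -⟩
    exact h ⟨h1, h2, trivial⟩
  | _ :: _ :: _ :: _ => rfl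

theorem xs {g : Om3} : (omSrc g).1 0 = (omTgt g).1 0 := rfl

/-- Smoothness. -/
theorem RR_smooth : omG.Smooth RR := by
  classical
  rw [SMPM.smooth_iff]
  intro d U x gs hU hx hg hc i j
  intro u₀ hu₀
  have hxc : ContinuousAt x u₀ := hx.continuousOn.continuousAt (hU.mem_nhds hu₀)
  have hxn : ∀ᶠ u in 𝓝 u₀, nn (x u) = nn (x u₀) := hxc.eventually (nn_locconst (x u₀))
  have hsrc : ∀ g ∈ gs, ∀ᶠ u in 𝓝 u₀, nn (omSrc (g u)) = nn (omSrc (g u₀)) := by
    intro g hg'
    have h1 : ContMDiffOn (𝓡 d) (𝓡 2) ∞ (fun u => omSrc (g u)) U :=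
      omG.src_subm.contMDiff.comp_contMDiffOn (hg g hg')
    have h2 : ContinuousAt (fun u => omSrc (g u)) u₀ :=
      h1.continuousOn.continuousAt (hU.mem_nhds hu₀)
    exact h2.eventually (nn_locconst (omSrc (g u₀)))
  have hU' : ∀ᶠ u in 𝓝 u₀, u ∈ U := hU.mem_nhds hu₀
  have hx0 : ContDiffOn ℝ ∞ (fun u => (x u).1 0) U := om_smooth_iff.1 hx 0
  have hcc : ContDiffWithinAt ℝ ∞ (fun u => (x u).1 0 - (nn (x u₀) : ℝ)) U u₀ :=
    (hx0 u₀ hu₀).sub contDiffWithinAt_const
  match gs with
  | [] =>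
    refine (hcc.mul (contDiffWithinAt_const
      (c := (em (nn (x u₀)) ∘ₗ DD') (Pi.single j 1) i))).congr_of_eventuallyEq ?_ ?_
    · filter_upwards [mem_nhdsWithin_of_mem_nhds hxn] with u hu
      change (cc (x u) • (em (nn (x u)) ∘ₗ DD')) (Pi.single j 1) i = _
      rw [cc, hu]; rfl
    · rfl
  | [g] =>
    refine (contDiffWithinAt_const
      (c := (RR (x u₀) [g u₀]) (Pi.single j 1) i)).congr_of_eventuallyEq ?_ rfl
    filter_upwards [mem_nhdsWithin_of_mem_nhds hxn, mem_nhdsWithin_of_mem_nhds (hsrc g (by simp)),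
      mem_nhdsWithin_of_mem_nhds hU'] with u hu hu2 hu3
    change RR (x u) [g u] _ _ = _
    rw [RR_one (hc u hu3).1, RR_one (hc u₀ hu₀).1, hu, hu2]
  | [g, h] =>
    by_cases hh : nn (x u₀) = nn (omSrc (h u₀)) ∧ nn (x u₀) ≠ nn (omSrc (g u₀))
    · have hne : (x u₀).1 0 - (nn (x u₀) : ℝ) ≠ 0 := by
        have h1 : omTgt (g u₀) = x u₀ := (hc u₀ hu₀).1
        have h2 : (x u₀).1 0 = (omSrc (g u₀)).1 0 := by rw [xs, h1]
        exact nn_ne h2 hh.2
      refine (((hcc.inv hne).mul (contDiffWithinAt_const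
        (c := (em (nn (x u₀)) ∘ₗ KK) (Pi.single j 1) i))).neg).congr_of_eventuallyEq ?_ ?_
      · filter_upwards [mem_nhdsWithin_of_mem_nhds hxn,
          mem_nhdsWithin_of_mem_nhds (hsrc g (by simp)),
          mem_nhdsWithin_of_mem_nhds (hsrc h (by simp)),
          mem_nhdsWithin_of_mem_nhds hU'] with u hu hu2 hu2' hu3
        change RR (x u) [g u, h u] _ _ = _
        rw [RR_two (hc u hu3).1 (hc u hu3).2.1, hu, hu2, hu2', if_pos hh, cc, hu]
        rfl
      · change RR (x u₀) [g u₀, h u₀] _ _ = _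
        rw [RR_two (hc u₀ hu₀).1 (hc u₀ hu₀).2.1, if_pos hh, cc]
        rfl
    · refine (contDiffWithinAt_const (c := (0 : ℝ))).congr_of_eventuallyEq ?_ ?_
      · filter_upwards [mem_nhdsWithin_of_mem_nhds hxn,
          mem_nhdsWithin_of_mem_nhds (hsrc g (by simp)),
          mem_nhdsWithin_of_mem_nhds (hsrc h (by simp)),
          mem_nhdsWithin_of_mem_nhds hU'] with u hu hu2 hu2' hu3
        change RR (x u) [g u, h u] _ _ = _
        rw [RR_two (hc u hu3).1 (hc u hu3).2.1, hu, hu2, hu2', if_neg hh]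
        rfl
      · change RR (x u₀) [g u₀, h u₀] _ _ = _
        rw [RR_two (hc u₀ hu₀).1 (hc u₀ hu₀).2.1, if_neg hh]
        rfl
  | _ :: _ :: _ :: _ => exact contDiffWithinAt_const

theorem RR_deg (p : Om2) (l : List Om3) : Deg dg dg (RR p l) (1 - l.length) := by
  classical
  match l with
  | [] => exact (((deg_em (nn p)).comp deg_D).smul (cc p)).congr (by simp)
  | [g] =>
    rw [RR]
    split_ifs
    · exact (deg_em _).congr (by simp)
    · exact Deg.zero
  | [g, k] =>
    rw [RR]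
    split_ifs
    · exact ((((deg_em (nn p)).comp deg_K).smul _).neg).congr (by simp)
    · exact Deg.zero
  | _ :: _ :: _ :: _ => exact Deg.zero

theorem RR_left (p : Om2) (l : List Om3) : em (nn p) ∘ₗ RR p l = RR p l := by
  classical
  match l with
  | [] => rw [RR, LinearMap.comp_smul, ← LinearMap.comp_assoc, em_em]
  | [g] =>
    rw [RR]
    split_ifs
    · exact em_em _
    · exact LinearMap.comp_zero _
  | [g, k] =>
    rw [RR]
    split_ifs
    · rw [LinearMap.comp_neg, LinearMap.comp_smul, ← LinearMap.comp_assoc, em_em]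
    · exact LinearMap.comp_zero _
  | _ :: _ :: _ :: _ => exact LinearMap.comp_zero _

theorem em_D_em (n : ℤ) : (em n ∘ₗ DD') ∘ₗ em n = em n ∘ₗ DD' := by
  rw [LinearMap.comp_assoc, ← em_D, ← LinearMap.comp_assoc, em_em]

theorem em_K_em (n : ℤ) : (em n ∘ₗ KK) ∘ₗ em n = em n ∘ₗ KK := by
  rw [LinearMap.comp_assoc, ← em_K, ← LinearMap.comp_assoc, em_em]

theorem RR_right (p : Om2) (l : List Om3) : RR p l ∘ₗ em (nn (omG.fin p l)) = RR p l := by
  classical
  match l with
  | [] =>
    change (cc p • (em (nn p) ∘ₗ DD')) ∘ₗ em (nn p) = _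
    rw [LinearMap.smul_comp, em_D_em]; rfl
  | [g] =>
    change RR p [g] ∘ₗ em (nn (omSrc g)) = _
    rw [RR]
    split_ifs with h
    · rw [← h.2]; exact em_em _
    · exact LinearMap.zero_comp _
  | [g, k] =>
    change RR p [g, k] ∘ₗ em (nn (omSrc k)) = _
    rw [RR]
    split_ifs with h
    · rw [← h.2.1, LinearMap.neg_comp, LinearMap.smul_comp, em_K_em]
    · exact LinearMap.zero_comp _
  | _ :: _ :: _ :: _ => exact LinearMap.zero_comp _

theorem cc_eq {p q : Om2} (h : p.1 0 = q.1 0) (hn : nn p = nn q) : cc p = cc q := by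
  rw [cc, cc, h, hn]

theorem tgt_mul' {g h : Om3} (H : omTgt h = omSrc g) : omTgt (omMul g h) = omTgt g :=
  omG.tgt_mul g h H.symm

theorem src_mul' {g h : Om3} (H : omTgt h = omSrc g) : omSrc (omMul g h) = omSrc h :=
  omG.src_mul g h H.symm

theorem eqn0 (p : Om2) : RR p [] ∘ₗ RR p [] = 0 := by
  rw [RR_nil, LinearMap.smul_comp, LinearMap.comp_smul, ← LinearMap.comp_assoc, em_D_em,
    LinearMap.comp_assoc, D_D, LinearMap.comp_zero, smul_zero, smul_zero]

theorem eqn1 {p : Om2} {g : Om3} (h : omTgt g = p) :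
    RR p [] ∘ₗ RR p [g] - RR p [g] ∘ₗ RR (omSrc g) [] = 0 := by
  rw [RR_one h, RR_nil, RR_nil]
  split_ifs with hn
  · have hx : p.1 0 = (omSrc g).1 0 := by rw [xs, h]
    rw [← cc_eq hx hn, ← hn, LinearMap.smul_comp, LinearMap.comp_smul, em_D_em,
      ← LinearMap.comp_assoc, em_em, sub_self]
  · rw [LinearMap.comp_zero, LinearMap.zero_comp, sub_zero]

theorem eqn2 {p : Om2} {g h : Om3} (h1 : omTgt g = p) (h2 : omTgt h = omSrc g) :
    -RR p [omMul g h] = RR p [] ∘ₗ RR p [g, h] - RR p [g] ∘ₗ RR (omSrc g) [h] +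
      RR p [g, h] ∘ₗ RR (omSrc h) [] := by
  have hx1 : p.1 0 = (omSrc g).1 0 := by rw [xs, h1]
  have hx2 : p.1 0 = (omSrc h).1 0 := by rw [xs, h2, hx1]
  rw [RR_one (show omTgt (omMul g h) = p by rw [tgt_mul' h2, h1]), RR_two h1 h2, RR_one h1,
    RR_one h2, RR_nil, RR_nil, src_mul' h2]
  by_cases a : nn p = nn (omSrc h)
  · by_cases b : nn p = nn (omSrc g)
    · have b' : nn (omSrc g) = nn (omSrc h) := b.symm.trans a
      simp only [← a, ← b, if_true, ne_eq, not_true_eq_false, and_false, if_false,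
        LinearMap.comp_zero, LinearMap.zero_comp, em_em]
      simp
    · have hne : cc p ≠ 0 := nn_ne hx1 b
      have b' : nn (omSrc g) ≠ nn p := fun h => b h.symm
      rw [← cc_eq hx2 a]
      simp only [← a, b, if_true, if_false, ne_eq, not_false_eq_true, and_self,
        LinearMap.zero_comp, sub_zero]
      have e1 : (cc p • (em (nn p) ∘ₗ DD')) ∘ₗ (-((cc p)⁻¹ • (em (nn p) ∘ₗ KK))) =
          -(em (nn p) ∘ₗ (DD' ∘ₗ KK)) := by
        rw [LinearMap.comp_neg, LinearMap.smul_comp, LinearMap.comp_smul, smul_smul,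
          mul_inv_cancel₀ hne, one_smul, ← LinearMap.comp_assoc, em_D_em, LinearMap.comp_assoc]
      have e2 : (-((cc p)⁻¹ • (em (nn p) ∘ₗ KK))) ∘ₗ (cc p • (em (nn p) ∘ₗ DD')) =
          -(em (nn p) ∘ₗ (KK ∘ₗ DD')) := by
        rw [LinearMap.neg_comp, LinearMap.smul_comp, LinearMap.comp_smul, smul_smul,
          inv_mul_cancel₀ hne, one_smul, ← LinearMap.comp_assoc, em_K_em, LinearMap.comp_assoc]
      rw [e1, e2, ← neg_add, ← LinearMap.comp_add, D_K, LinearMap.comp_id]
  · by_cases b : nn p = nn (omSrc g)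
    · have c : nn (omSrc g) ≠ nn (omSrc h) := fun h => a (b.trans h)
      simp [a, c]
    · simp [a, b]

theorem eqn3 {p : Om2} {g h k : Om3} (h1 : omTgt g = p) (h2 : omTgt h = omSrc g)
    (h3 : omTgt k = omSrc h) :
    -RR p [omMul g h, k] + RR p [g, omMul h k] =
      -(RR p [g] ∘ₗ RR (omSrc g) [h, k]) + RR p [g, h] ∘ₗ RR (omSrc h) [k] := by
  have hx1 : p.1 0 = (omSrc g).1 0 := by rw [xs, h1]
  have hx2 : p.1 0 = (omSrc h).1 0 := by rw [xs, h2, hx1]
  rw [RR_two (show omTgt (omMul g h) = p by rw [tgt_mul' h2, h1])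
    (show omTgt k = omSrc (omMul g h) by rw [src_mul' h2, h3]), RR_two h1
    (show omTgt (omMul h k) = omSrc g by rw [tgt_mul' h3, h2]), RR_one h1, RR_two h2 h3,
    RR_two h1 h2, RR_one h3, src_mul' h2, src_mul' h3]
  by_cases a : nn p = nn (omSrc k)
  · by_cases b : nn p = nn (omSrc g)
    · by_cases c : nn p = nn (omSrc h)
      · have c' : nn (omSrc g) = nn (omSrc h) := b.symm.trans c
        simp only [← a, ← b, ← c, ne_eq, not_true_eq_false, and_false, if_false]
        simp
      · have c' : ¬ nn (omSrc g) = nn (omSrc h) := fun h => c (b.trans h)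
        rw [← cc_eq hx1 b]
        simp only [← a, ← b, c, ne_eq, not_true_eq_false, and_false, if_false, not_false_eq_true,
          and_true, if_true]
        rw [LinearMap.comp_neg, LinearMap.comp_smul, ← LinearMap.comp_assoc, em_em]
        simp
    · have b' : ¬ nn (omSrc g) = nn p := fun h => b h.symm
      by_cases c : nn p = nn (omSrc h)
      · simp only [← a, b, ← c, ne_eq, not_true_eq_false, and_false, if_false, not_false_eq_true,
          and_true, if_true]
        rw [LinearMap.neg_comp, LinearMap.smul_comp, em_K_em]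
        simp
      · have c' : ¬ nn (omSrc h) = nn p := fun h => c h.symm
        simp only [← a, b, c, ne_eq, and_false, if_false, not_false_eq_true, and_true, if_true]
        simp
  · have a1 : ¬ (nn p = nn (omSrc g) ∧ nn (omSrc g) = nn (omSrc k)) :=
      fun h => a (h.1.trans h.2)
    have a2 : ¬ (nn p = nn (omSrc h) ∧ nn (omSrc h) = nn (omSrc k)) :=
      fun h => a (h.1.trans h.2)
    simp only [a, false_and, if_false]
    by_cases b : nn p = nn (omSrc g)
    · have b1 : ¬ nn (omSrc g) = nn (omSrc k) := fun h => a1 ⟨b, h⟩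
      simp only [b1, false_and, if_false]
      by_cases c : nn p = nn (omSrc h)
      · have c1 : ¬ nn (omSrc h) = nn (omSrc k) := fun h => a2 ⟨c, h⟩
        simp only [c1, if_false]
        simp
      · simp only [c, false_and, if_false]
        simp
    · simp only [b, if_false]
      by_cases c : nn p = nn (omSrc h)
      · have c1 : ¬ nn (omSrc h) = nn (omSrc k) := fun h => a2 ⟨c, h⟩
        simp only [c1, if_false]
        simp
      · simp only [c, false_and, if_false]
        simp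

theorem RR_RR (p q : Om2) (l m : List Om3) (h : 4 ≤ l.length + m.length) :
    RR p l ∘ₗ RR q m = 0 := by
  classical
  by_cases h1 : 3 ≤ l.length
  · rw [RR_long h1, LinearMap.zero_comp]
  · by_cases h2 : 3 ≤ m.length
    · rw [RR_long h2, LinearMap.comp_zero]
    · obtain ⟨a, b, rfl⟩ := List.length_eq_two.1 (show l.length = 2 by omega)
      obtain ⟨c, d, rfl⟩ := List.length_eq_two.1 (show m.length = 2 by omega)
      rw [RR, RR]
      have hk : ∀ n n' : ℤ, (em n ∘ₗ KK) ∘ₗ (em n' ∘ₗ KK) = 0 := by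
        intro n n'
        refine LinearMap.ext fun z => funext fun i => ?_
        simp only [LinearMap.comp_apply, em_apply, K_apply]
        split_ifs <;> simp_all
      split_ifs
      · rw [LinearMap.neg_comp, LinearMap.comp_neg, LinearMap.smul_comp, LinearMap.comp_smul, hk]
        simp
      · exact LinearMap.comp_zero _
      · exact LinearMap.zero_comp _
      · exact LinearMap.zero_comp _

theorem face_length {G : LieGpd} (j : ℕ) (l : List G.Ar) : l.length - 1 ≤ (G.face j l).length := by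
  induction l generalizing j with
  | nil => simp
  | cons g l ih =>
    cases l with
    | nil => simp
    | cons h l =>
      cases j with
      | zero => simp [LieGpd.face]
      | succ j =>
        have := ih j
        simp only [LieGpd.face, List.length_cons] at this ⊢
        omega

theorem RR_eqn (p : Om2) (l : List Om3) (hc : omG.Chain p l) :
    ∑ j ∈ Finset.range (l.length - 1), ((-1 : ℝ) ^ (j + 1)) • RR p (omG.face j l) =
      ∑ j ∈ Finset.range (l.length + 1),
        ((-1 : ℝ) ^ j) • (RR p (l.take j) ∘ₗ RR (omG.fin p (l.take j)) (l.drop j)) := by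
  have key : ∀ X : (Ix → ℝ) →ₗ[ℝ] (Ix → ℝ), (-1 : ℝ) • X = -X := fun X => neg_one_smul ℝ X
  have p2 : ((-1 : ℝ)) ^ 2 = 1 := by norm_num
  match l, hc with
  | [], _ =>
    simp only [List.length_nil, Nat.zero_sub, Finset.range_zero, Finset.sum_empty, zero_add,
      Finset.range_one, Finset.sum_singleton, pow_zero, List.take_nil, List.drop_nil, one_smul]
    exact (eqn0 p).symm
  | [g], hc =>
    have h := eqn1 hc.1
    simp only [List.length_cons, List.length_nil, zero_add, Nat.sub_self, Finset.range_zero,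
      Finset.sum_empty, Finset.sum_range_succ, pow_zero, one_smul, pow_one, List.take_zero,
      List.drop_zero, List.take_succ_cons, List.take_nil, List.drop_succ_cons, List.drop_nil]
    rw [key, ← sub_eq_add_neg]
    exact h.symm
  | [g, g'], hc =>
    have h := eqn2 hc.1 hc.2.1
    simp only [List.length_cons, List.length_nil, zero_add,
      Finset.range_zero, Finset.sum_empty, Finset.sum_range_succ,
      pow_zero, one_smul, pow_one, List.take_zero,
      List.drop_zero, List.take_succ_cons, List.take_nil, List.drop_succ_cons, List.drop_nil,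
      Nat.reduceAdd, p2]
    rw [key, key, ← sub_eq_add_neg]
    exact h
  | [g, g', k], hc =>
    have h := eqn3 hc.1 hc.2.1 hc.2.2.1
    have z1 : RR p [g, g', k] = 0 := rfl
    simp only [List.length_cons, List.length_nil, zero_add,
      Finset.sum_range_succ, Finset.range_zero, Finset.sum_empty,
      pow_zero, one_smul, pow_one, List.take_zero,
      List.drop_zero, List.take_succ_cons, List.take_nil, List.drop_succ_cons, List.drop_nil,
      Nat.reduceAdd, p2, z1, LinearMap.zero_comp, smul_zero, add_zero]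
    have z2 : RR p [] ∘ₗ RR (omG.fin p []) [g, g', k] = 0 := LinearMap.comp_zero _
    rw [z2, zero_add, key, key]
    exact h
  | g :: h :: k :: m :: l, hc =>
    rw [Finset.sum_eq_zero, Finset.sum_eq_zero]
    · intro j hj
      rw [RR_RR, smul_zero]
      rw [List.length_take, List.length_drop]
      have := Finset.mem_range.1 hj
      simp only [List.length_cons] at this ⊢
      omega
    · intro j _
      rw [RR_long, smul_zero]
      have := face_length (G := omG) j (g :: h :: k :: m :: l)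
      simp only [List.length_cons] at this
      omega

theorem em_smooth (i j : Ix) :
    ContMDiff (𝓡 2) 𝓘(ℝ, ℝ) ∞ (fun p : Om2 => em (nn p) (Pi.single j 1) i) := by
  intro p
  refine (contMDiffAt_const (c := em (nn p) (Pi.single j 1) i)).congr_of_eventuallyEq ?_
  filter_upwards [nn_locconst p] with q hq
  rw [hq]

theorem em_supp (n : ℤ) : ∃ S : Finset Ix, Supp S (em n) := by
  refine ⟨(Finset.range n.toNat) ×ˢ Finset.univ, ?_, ?_⟩
  · intro z i hi
    rw [em_apply, if_neg]
    intro h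
    apply hi
    rw [Finset.mem_product]
    refine ⟨Finset.mem_range.2 ?_, Finset.mem_univ _⟩
    omega
  · intro z hz
    funext i
    rw [em_apply]
    split_ifs with h
    · refine hz i ?_
      rw [Finset.mem_product]
      refine ⟨Finset.mem_range.2 ?_, Finset.mem_univ _⟩
      omega
    · rfl

theorem RR_ok : IsRuthU omG dg (fun p => em (nn p)) RR where
  deg_bdd := ⟨1, fun i => by
    unfold dg
    split_ifs <;> simp⟩
  e_fin := by
    intro p
    obtain ⟨S, hS⟩ := em_supp (nn p)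
    refine ⟨S, ?_⟩
    filter_upwards [nn_locconst p] with q hq
    rw [hq]
    exact hS
  e_smooth := em_smooth
  e_idem := fun p => em_em _
  e_deg := fun p => deg_em _
  R_zero := RR_zero
  R_smooth := RR_smooth
  R_deg := RR_deg
  R_left := RR_left
  R_right := RR_right
  eqn := RR_eqn
  unit_one := by
    intro p
    have h1 : omTgt (omOne p) = p := omG.tgt_one p
    have h2 : omSrc (omOne p) = p := omG.src_one p
    rw [RR_one h1, h2, if_pos rfl]
  unit_mem := by
    classical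
    intro p l hl hy
    obtain ⟨y, hy⟩ := hy
    have t1 : omTgt (omOne y) = y := omG.tgt_one y
    have t2 : omSrc (omOne y) = y := omG.src_one y
    by_cases h3 : 3 ≤ l.length
    · exact RR_long h3
    · obtain ⟨a, b, rfl⟩ := List.length_eq_two.1 (show l.length = 2 by omega)
      rw [RR, if_neg]
      rintro ⟨⟨c1, c2⟩, c3, c4⟩
      have hy' : omOne y = a ∨ omOne y = b := by simpa using hy
      rcases hy' with rfl | rfl
      · rw [t1] at c1
        rw [t2, c1] at c4
        exact c4 rfl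
      · rw [t1] at c2
        rw [t2, c2] at c3
        exact c4 c3

end UEXM

open UEXM in
theorem specUEX : SpecUEX := by
  refine ⟨omG, lineU, omCov, Ix, inferInstance, dg, fun p => em (nn p), RR, RR_ok, ?_, ?_⟩
  · change PreconnectedSpace (Eu 1)
    infer_instance
  · intro n
    have hp : Om (n : ℝ) (n + 1 / 2) := ⟨n, by push_cast; linarith, by push_cast; linarith,
      by push_cast; linarith, by push_cast; linarith⟩
    let p : Om2 := ⟨mk2 n (n + 1 / 2), hp⟩
    have hn : nn p = n := by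
      rw [nn, Int.floor_eq_iff]
      change ((n : ℤ) : ℝ) ≤ (n : ℝ) + 1 / 2 ∧ (n : ℝ) + 1 / 2 < ((n : ℤ) : ℝ) + 1
      push_cast
      constructor <;> linarith
    have hcc : cc p = 0 := by
      rw [cc, hn]
      change (n : ℝ) - ((n : ℤ) : ℝ) = 0
      push_cast
      ring
    have hR : RR p [] = 0 := by rw [RR_nil, hcc, zero_smul]
    refine ⟨p, fun i => Pi.single (i.1, false) 1, fun i => ⟨?_, ?_⟩, ?_⟩
    · change em (nn p) (Pi.single (i.1, false) 1) = _
      rw [hn]
      funext k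
      rw [em_apply]
      split_ifs with hk
      · rfl
      · symm
        change (Pi.single ((i.1, false) : Ix) (1 : ℝ) : Ix → ℝ) k = 0
        rw [Pi.single_apply, if_neg]
        rintro rfl
        apply hk
        exact_mod_cast i.2
    · change RR p [] _ = 0
      rw [hR]; rfl
    · rintro c ⟨y, hy⟩
      change _ = RR p [] y at hy
      rw [hR, LinearMap.zero_apply] at hy
      funext i
      have h1 := congrFun hy (i.1, false)
      rw [Finset.sum_apply, Finset.sum_eq_single i] at h1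
      · simpa using h1
      · intro b _ hb
        have : ((i.1, false) : Ix) ≠ (b.1, false) := by
          intro h
          apply hb
          exact Fin.ext (congrArg Prod.fst h).symm
        change c b • (Pi.single ((b.1, false) : Ix) (1 : ℝ) : Ix → ℝ) (i.1, false) = 0
        rw [Pi.single_apply, if_neg this, smul_zero]
      · intro h
        exact absurd (Finset.mem_univ _) h

end Pool.Agent.Lib.MP_9b987c_gt.HC.UR
end
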