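import Pool.Agent.Lib.MP_9b987c_gt.HC.NU.HATN
import Pool.Agent.Lib.MP_9b987c_gt.HC.PLF
import Pool.Agent.Lib.MP_9b987c_gt.HC.TWS

/-!
# Representations up to homotopy on bundles of locally constant, possibly unbounded rank
-/

namespace Pool.Agent.Lib.MP_9b987c_gt.HC.UR

open scoped Manifold ContDiff BigOperators Topology

/-- The data `(deg, e, R)` are a unital representation up to homotopy of `G` on a bounded graded vector
bundle whose rank is finite and locally constant, but not necessarily bounded: as `IsRuth`, but the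
index set `ι` of the trivial bundle may be infinite; the degrees are bounded, and near every point of
`Ob` the idempotent `e` only involves finitely many of the coordinates. -/
structure IsRuthU (G : LieGpd) {ι : Type} [DecidableEq ι] (deg : ι → ℤ)
    (e : G.Ob → (ι → ℝ) →ₗ[ℝ] (ι → ℝ)) (R : G.Ob → List G.Ar → (ι → ℝ) →ₗ[ℝ] (ι → ℝ)) : Prop where
  deg_bdd : ∃ N : ℕ, ∀ i, (deg i).natAbs ≤ N
  e_fin : ∀ x, ∃ S : Finset ι, ∀ᶠ y in 𝓝 x,
    (∀ z, ∀ i, i ∉ S → e y z i = 0) ∧ (∀ z, (∀ i ∈ S, z i = 0) → e y z = 0)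
  e_smooth : ∀ i j, ContMDiff (𝓡 G.m) 𝓘(ℝ, ℝ) ∞ (fun x => e x (Pi.single j 1) i)
  e_idem : ∀ x, e x ∘ₗ e x = e x
  e_deg : ∀ x, Deg deg deg (e x) 0
  R_zero : ∀ x l, ¬ G.Chain x l → R x l = 0
  R_smooth : G.Smooth R
  R_deg : ∀ x l, Deg deg deg (R x l) (1 - l.length)
  R_left : ∀ x l, e x ∘ₗ R x l = R x l
  R_right : ∀ x l, R x l ∘ₗ e (G.fin x l) = R x l
  eqn : ∀ x l, G.Chain x l →
    ∑ j ∈ Finset.range (l.length - 1), ((-1 : ℝ) ^ (j + 1)) • R x (G.face j l) =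
      ∑ j ∈ Finset.range (l.length + 1),
        ((-1 : ℝ) ^ j) • (R x (l.take j) ∘ₗ R (G.fin x (l.take j)) (l.drop j))
  unit_one : ∀ x, R x [G.one x] = e x
  unit_mem : ∀ x l, 2 ≤ l.length → (∃ y, G.one y ∈ l) → R x l = 0

/-- Morphisms: the conditions of `IsHom`. -/
structure IsHomU (G : LieGpd) {ι κ : Type} [DecidableEq ι] [DecidableEq κ]
    (deg : ι → ℤ) (e : G.Ob → (ι → ℝ) →ₗ[ℝ] (ι → ℝ)) (R : G.Ob → List G.Ar → (ι → ℝ) →ₗ[ℝ] (ι → ℝ))
    (deg' : κ → ℤ) (e' : G.Ob → (κ → ℝ) →ₗ[ℝ] (κ → ℝ))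
    (R' : G.Ob → List G.Ar → (κ → ℝ) →ₗ[ℝ] (κ → ℝ))
    (F : G.Ob → List G.Ar → (ι → ℝ) →ₗ[ℝ] (κ → ℝ)) : Prop where
  F_zero : ∀ x l, ¬ G.Chain x l → F x l = 0
  F_smooth : G.Smooth F
  F_deg : ∀ x l, Deg deg deg' (F x l) (-l.length)
  F_left : ∀ x l, e' x ∘ₗ F x l = F x l
  F_right : ∀ x l, F x l ∘ₗ e (G.fin x l) = F x l
  eqn : ∀ x l, G.Chain x l →
    ∑ j ∈ Finset.range (l.length + 1),
        ((-1 : ℝ) ^ j) • (F x (l.take j) ∘ₗ R (G.fin x (l.take j)) (l.drop j)) =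
      ∑ j ∈ Finset.range (l.length + 1), R' x (l.take j) ∘ₗ F (G.fin x (l.take j)) (l.drop j) +
      ∑ j ∈ Finset.range (l.length - 1), ((-1 : ℝ) ^ (j + 1)) • F x (G.face j l)

/-- A representation up to homotopy of `G`, bundles of locally constant rank. -/
structure RuthU (G : LieGpd) where
  ι : Type
  [dec : DecidableEq ι]
  deg : ι → ℤ
  e : G.Ob → (ι → ℝ) →ₗ[ℝ] (ι → ℝ)
  R : G.Ob → List G.Ar → (ι → ℝ) →ₗ[ℝ] (ι → ℝ)
  ok : IsRuthU G deg e R

attribute [instance] RuthU.dec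

/-- Morphisms. -/
@[ext]
structure RuthU.Hom {G : LieGpd} (E E' : RuthU G) where
  F : G.Ob → List G.Ar → (E.ι → ℝ) →ₗ[ℝ] (E'.ι → ℝ)
  ok : IsHomU G E.deg E.e E.R E'.deg E'.e E'.R F

variable {G : LieGpd}

lemma eps_cv {V M N P : Type} [AddCommGroup M] [Module ℝ M] [AddCommGroup N] [Module ℝ N]
    [AddCommGroup P] [Module ℝ P] (A : V → List V → (N →ₗ[ℝ] P)) (B : V → List V → (M →ₗ[ℝ] N))
    (v : V) (l : List V) : eps (cv A B) v l = cv (eps A) (eps B) v l := by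
  induction l generalizing A v with
  | nil => simp [eps]
  | cons u l ih =>
    have h1 : sh (eps A) v = - eps (sh A v) := by
      funext w m
      simp [eps, sh, pow_succ]
    rw [eps_apply, cv_cons, cv_cons, h1, smul_add]
    have h2 := ih (sh A v) u
    rw [eps_apply] at h2
    congr 1
    · simp [eps, LinearMap.comp_smul]
    · rw [List.length_cons, pow_succ, mul_neg_one, neg_smul, h2]
      exact (cv_neg_left _ _ _ _).symm

/-- The equation of a morphism on all frames. -/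
def HEq0 (G : LieGpd) {ι κ : Type} (R : G.Ob → List G.Ar → (ι → ℝ) →ₗ[ℝ] (ι → ℝ))
    (R' : G.Ob → List G.Ar → (κ → ℝ) →ₗ[ℝ] (κ → ℝ)) (F : G.Ob → List G.Ar → (ι → ℝ) →ₗ[ℝ] (κ → ℝ)) :
    Prop :=
  ∀ (V : Type) (Fr : Frame G V) v l, cv (eps (Fr.hom F)) (Fr.hom R) v l =
    cv (Fr.hom R') (Fr.hom F) v l + fc (Fr.hom F) v l

lemma heq0_iff {ι κ : Type} {R : G.Ob → List G.Ar → (ι → ℝ) →ₗ[ℝ] (ι → ℝ)}
    {R' : G.Ob → List G.Ar → (κ → ℝ) →ₗ[ℝ] (κ → ℝ)} {F : G.Ob → List G.Ar → (ι → ℝ) →ₗ[ℝ] (κ → ℝ)} :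
    (∀ x l, G.Chain x l →
      ∑ j ∈ Finset.range (l.length + 1),
        ((-1 : ℝ) ^ j) • (F x (l.take j) ∘ₗ R (G.fin x (l.take j)) (l.drop j)) =
      ∑ j ∈ Finset.range (l.length + 1), R' x (l.take j) ∘ₗ F (G.fin x (l.take j)) (l.drop j) +
      ∑ j ∈ Finset.range (l.length - 1), ((-1 : ℝ) ^ (j + 1)) • F x (G.face j l)) ↔
    HEq0 G R R' F := by
  obtain ⟨f1, f2, f3, f4, f5, -, -, -, -, -, -⟩ := specFRM G
  have key : ∀ (V : Type) (Fr : Frame G V) v l,
      (cv (eps (Fr.hom F)) (Fr.hom R) v l =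
        cv (Fr.hom R') (Fr.hom F) v l + fc (Fr.hom F) v l) ↔
      (∑ j ∈ Finset.range ((Fr.arr v l).length + 1),
        ((-1 : ℝ) ^ j) • (F (Fr.b v) ((Fr.arr v l).take j) ∘ₗ
          R (G.fin (Fr.b v) ((Fr.arr v l).take j)) ((Fr.arr v l).drop j)) =
      ∑ j ∈ Finset.range ((Fr.arr v l).length + 1), R' (Fr.b v) ((Fr.arr v l).take j) ∘ₗ
        F (G.fin (Fr.b v) ((Fr.arr v l).take j)) ((Fr.arr v l).drop j) +
      ∑ j ∈ Finset.range ((Fr.arr v l).length - 1), ((-1 : ℝ) ^ (j + 1)) •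
        F (Fr.b v) (G.face j (Fr.arr v l))) := by
    intro V Fr v l
    have h2 := f2 V Fr ι κ κ R' F v l
    have h3 := f3 V Fr ι ι κ F R v l
    have h4 := f4 V Fr ι κ F v l
    rw [← h3, ← h4, ← h2]
    simp only [(f1 V Fr v l).2.2, Frame.hom, starG]
  constructor
  · intro h V Fr v l
    rw [key]
    exact h _ _ (f1 V Fr v l).1
  · intro h x l hl
    obtain ⟨l', hl', hx⟩ := f5 x l hl
    have := (key _ (wf G x) (wf0 G x) l').1 (h _ (wf G x) (wf0 G x) l')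
    rw [hl', hx] at this
    exact this

lemma unitG_zero {ι : Type} (e : G.Ob → (ι → ℝ) →ₗ[ℝ] (ι → ℝ)) (x : G.Ob) (l : List G.Ar)
    (h : ¬ G.Chain x l) : unitG G e x l = 0 := by
  cases l with
  | nil => exact absurd trivial h
  | cons g l => rfl

lemma starG_zero {ι κ μ : Type} {A : G.Ob → List G.Ar → (κ → ℝ) →ₗ[ℝ] (μ → ℝ)}
    {B : G.Ob → List G.Ar → (ι → ℝ) →ₗ[ℝ] (κ → ℝ)} (hA : ∀ x l, ¬ G.Chain x l → A x l = 0)
    (hB : ∀ x l, ¬ G.Chain x l → B x l = 0) (x : G.Ob) (l : List G.Ar) (hl : ¬ G.Chain x l) :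
    starG G A B x l = 0 := by
  rw [starG]
  refine Finset.sum_eq_zero (fun j _ => ?_)
  by_cases h : G.Chain x (l.take j)
  · have h' : ¬ G.Chain (G.fin x (l.take j)) (l.drop j) := fun h' => hl (SMPM.chain_glue j h h')
    rw [hB _ _ h', LinearMap.comp_zero]
  · rw [hA _ _ h, LinearMap.zero_comp]

/-- Composition is smooth if the first map has values in finitely many coordinates, locally. -/
lemma comp_smoothOn_fin {ι κ μ : Type} [DecidableEq ι] [DecidableEq κ] {d : ℕ}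
    {U : Set (Eu d)} (hU : IsOpen U) {F : Eu d → (κ → ℝ) →ₗ[ℝ] (μ → ℝ)}
    {F' : Eu d → (ι → ℝ) →ₗ[ℝ] (κ → ℝ)}
    (hF : ∀ i j, ContDiffOn ℝ ∞ (fun u => F u (Pi.single j 1) i) U)
    (hF' : ∀ i j, ContDiffOn ℝ ∞ (fun u => F' u (Pi.single j 1) i) U)
    (hfin : ∀ u₀ ∈ U, ∃ S : Finset κ, ∀ᶠ u in 𝓝 u₀, u ∈ U → ∀ z, ∀ i, i ∉ S → F' u z i = 0)
    (i : μ) (j : ι) :
    ContDiffOn ℝ ∞ (fun u => (F u ∘ₗ F' u) (Pi.single j 1) i) U := by
  intro u₀ hu₀
  obtain ⟨S, hS⟩ := hfin u₀ hu₀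
  have h1 : ContDiffOn ℝ ∞ (fun u => ∑ k ∈ S, F' u (Pi.single j 1) k * F u (Pi.single k 1) i) U :=
    ContDiffOn.sum (fun k _ => (hF' k j).mul (hF i k))
  have h2 := h1 u₀ hu₀
  refine h2.congr_of_eventuallyEq ?_ ?_
  · filter_upwards [mem_nhdsWithin_of_mem_nhds hS, self_mem_nhdsWithin] with u hu huU
    have hu' := hu huU
    have h3 : F' u (Pi.single j 1) =
        ∑ k ∈ S, F' u (Pi.single j 1) k • (Pi.single k (1:ℝ) : κ → ℝ) := by
      funext a
      rw [Finset.sum_apply]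
      by_cases ha : a ∈ S
      · rw [Finset.sum_eq_single a]
        · simp
        · intro b _ hb
          simp [Ne.symm hb]
        · intro h; exact absurd ha h
      · rw [hu' _ a ha]
        refine (Finset.sum_eq_zero (fun b hb => ?_)).symm
        have : a ≠ b := fun h => ha (h ▸ hb)
        simp [this]
    rw [LinearMap.comp_apply]
    conv_lhs => rw [h3]
    rw [map_sum, Finset.sum_apply]
    refine Finset.sum_congr rfl (fun k _ => ?_)
    rw [map_smul, Pi.smul_apply, smul_eq_mul]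
  · have hu' := hS.self_of_nhds hu₀
    have h3 : F' u₀ (Pi.single j 1) =
        ∑ k ∈ S, F' u₀ (Pi.single j 1) k • (Pi.single k (1:ℝ) : κ → ℝ) := by
      funext a
      rw [Finset.sum_apply]
      by_cases ha : a ∈ S
      · rw [Finset.sum_eq_single a]
        · simp
        · intro b _ hb
          simp [Ne.symm hb]
        · intro h; exact absurd ha h
      · rw [hu' _ a ha]
        refine (Finset.sum_eq_zero (fun b hb => ?_)).symm
        have : a ≠ b := fun h => ha (h ▸ hb)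
        simp [this]
    rw [LinearMap.comp_apply]
    conv_lhs => rw [h3]
    rw [map_sum, Finset.sum_apply]
    refine Finset.sum_congr rfl (fun k _ => ?_)
    rw [map_smul, Pi.smul_apply, smul_eq_mul]

/-- Local finiteness of a family of idempotents. -/
def LocFin (G : LieGpd) {ι : Type} (e : G.Ob → (ι → ℝ) →ₗ[ℝ] (ι → ℝ)) : Prop :=
  ∀ x, ∃ S : Finset ι, ∀ᶠ y in 𝓝 x,
    (∀ z, ∀ i, i ∉ S → e y z i = 0) ∧ (∀ z, (∀ i ∈ S, z i = 0) → e y z = 0)

lemma starG_smooth_fin {ι κ μ : Type} [DecidableEq ι] [DecidableEq κ]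
    {A : G.Ob → List G.Ar → (κ → ℝ) →ₗ[ℝ] (μ → ℝ)} {B : G.Ob → List G.Ar → (ι → ℝ) →ₗ[ℝ] (κ → ℝ)}
    {e : G.Ob → (κ → ℝ) →ₗ[ℝ] (κ → ℝ)} (he : LocFin G e) (hBl : ∀ x l, e x ∘ₗ B x l = B x l)
    (hA : G.Smooth A) (hB : G.Smooth B) : G.Smooth (starG G A B) := by
  rw [SMPM.smooth_iff] at hA hB ⊢
  intro d U x gs hU hx hg hc i j
  have h1 : ∀ t, t ∈ Finset.range (gs.length + 1) → ContDiffOn ℝ ∞ (fun u =>
      (A (x u) ((gs.map (fun g => g u)).take t) ∘ₗ
        B (G.fin (x u) ((gs.map (fun g => g u)).take t)) ((gs.map (fun g => g u)).drop t))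
        (Pi.single j 1) i) U := by
    intro t _
    have hf := SMPM.fin_smooth (gs.take t) x hx (fun g hg' => hg g (List.mem_of_mem_take hg'))
    have ha := hA d U x (gs.take t) hU hx (fun g hg' => hg g (List.mem_of_mem_take hg'))
      (fun u hu => by rw [List.map_take]; exact SMPM.chain_take (hc u hu) t)
    have hb := hB d U (fun u => G.fin (x u) ((gs.take t).map (fun g => g u))) (gs.drop t) hU
      hf (fun g hg' => hg g (List.mem_of_mem_drop hg'))
      (fun u hu => by rw [List.map_take, List.map_drop]; exact SMPM.chain_drop (hc u hu) t)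
    have := comp_smoothOn_fin hU ha hb (fun u₀ hu₀ => by
      obtain ⟨S, hS⟩ := he (G.fin (x u₀) ((gs.take t).map (fun g => g u₀)))
      have hcont : ContinuousAt (fun u => G.fin (x u) ((gs.take t).map (fun g => g u))) u₀ :=
        (hf.continuousOn).continuousAt (hU.mem_nhds hu₀)
      refine ⟨S, ?_⟩
      filter_upwards [hcont.eventually hS] with u hu _ z i hi
      rw [← hBl, LinearMap.comp_apply]
      exact hu.1 _ i hi) i j
    simpa only [List.map_take, List.map_drop] using this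
  refine (ContDiffOn.sum h1).congr (fun u _ => ?_)
  simp only [starG, List.length_map]
  rw [LinearMap.sum_apply, Finset.sum_apply]

/-- The identity is a morphism. -/
lemma id_ok {ι : Type} [DecidableEq ι] {deg : ι → ℤ} {e : G.Ob → (ι → ℝ) →ₗ[ℝ] (ι → ℝ)}
    {R : G.Ob → List G.Ar → (ι → ℝ) →ₗ[ℝ] (ι → ℝ)} (h : IsRuthU G deg e R) :
    IsHomU G deg e R deg e R (unitG G e) where
  F_zero := unitG_zero e
  F_smooth := by
    rw [SMPM.smooth_iff]
    intro d U x gs hU hx hg hc i j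
    cases gs with
    | nil => exact ((h.e_smooth i j).comp_contMDiffOn hx).contDiffOn
    | cons g gs =>
      refine (contDiffOn_const (c := (0:ℝ))).congr (fun u _ => ?_)
      simp [unitG]
  F_deg := by
    intro x l
    cases l with
    | nil => simpa [unitG] using h.e_deg x
    | cons g l => exact Deg.zero
  F_left := by
    intro x l
    cases l with
    | nil => exact h.e_idem x
    | cons g l => simp [unitG]
  F_right := by
    intro x l
    cases l with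
    | nil => exact h.e_idem x
    | cons g l => simp [unitG]
  eqn := by
    obtain ⟨f1, f2, f3, f4, f5, f6, f7, -, -, -, -⟩ := specFRM G
    rw [heq0_iff]
    intro V Fr v l
    have h1 : Fr.hom (unitG G e) = unt (fun v => e (Fr.b v)) := by
      funext v l
      exact f7 V Fr ι e v l
    have h2 : eps (unt (fun v => e (Fr.b v))) = unt (fun v => e (Fr.b v)) := by
      funext v l
      cases l with
      | nil => simp [eps]
      | cons u l => simp [eps, unt]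
    rw [h1, h2, DLBM.fc_unt, DLBM.cv_unt_left, DLBM.cv_unt_right, add_zero]
    have h3 := h.R_left (Fr.b v) (Fr.arr v l)
    have h4 := h.R_right (Fr.b v) (Fr.arr v l)
    rw [(f1 V Fr v l).2.1] at h4
    exact h3.trans h4.symm

lemma fin_fin (x : G.Ob) (l : List G.Ar) (j : ℕ) :
    G.fin (G.fin x (l.take j)) (l.drop j) = G.fin x l := by
  induction l generalizing x j with
  | nil => simp [LieGpd.fin]
  | cons g l ih =>
    cases j with
    | zero => rfl
    | succ j => exact ih (G.src g) j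

/-- The composition of morphisms is a morphism. -/
lemma comp_ok {ι κ μ : Type} [DecidableEq ι] [DecidableEq κ] [DecidableEq μ] {dE : ι → ℤ}
    {dF : κ → ℤ} {dG : μ → ℤ} {eE : G.Ob → (ι → ℝ) →ₗ[ℝ] (ι → ℝ)}
    {RE : G.Ob → List G.Ar → (ι → ℝ) →ₗ[ℝ] (ι → ℝ)} {eF : G.Ob → (κ → ℝ) →ₗ[ℝ] (κ → ℝ)}
    {RF : G.Ob → List G.Ar → (κ → ℝ) →ₗ[ℝ] (κ → ℝ)} {eG : G.Ob → (μ → ℝ) →ₗ[ℝ] (μ → ℝ)}
    {RG : G.Ob → List G.Ar → (μ → ℝ) →ₗ[ℝ] (μ → ℝ)} (hF : IsRuthU G dF eF RF)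
    {A : G.Ob → List G.Ar → (κ → ℝ) →ₗ[ℝ] (μ → ℝ)} {B : G.Ob → List G.Ar → (ι → ℝ) →ₗ[ℝ] (κ → ℝ)}
    (hA : IsHomU G dF eF RF dG eG RG A) (hB : IsHomU G dE eE RE dF eF RF B) :
    IsHomU G dE eE RE dG eG RG (starG G A B) where
  F_zero := starG_zero hA.F_zero hB.F_zero
  F_smooth := starG_smooth_fin hF.e_fin hB.F_left hA.F_smooth hB.F_smooth
  F_deg := by
    intro x l
    refine Deg.sum (fun j hj => ?_)
    have hj' : j ≤ l.length := Nat.lt_succ_iff.1 (Finset.mem_range.1 hj)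
    refine ((hA.F_deg x (l.take j)).comp (hB.F_deg _ (l.drop j))).congr ?_
    rw [List.length_take, List.length_drop, min_eq_left hj']
    push_cast [hj']
    ring
  F_left := by
    intro x l
    refine LinearMap.ext (fun z => ?_)
    simp only [starG]
    rw [LinearMap.comp_apply, LinearMap.sum_apply, map_sum]
    refine Finset.sum_congr rfl (fun j _ => ?_)
    rw [← LinearMap.comp_apply, ← LinearMap.comp_assoc, hA.F_left]
  F_right := by
    intro x l
    refine LinearMap.ext (fun z => ?_)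
    simp only [starG]
    rw [LinearMap.comp_apply, LinearMap.sum_apply, LinearMap.sum_apply]
    refine Finset.sum_congr rfl (fun j _ => ?_)
    rw [← LinearMap.comp_apply, LinearMap.comp_assoc]
    congr 2
    have h := hB.F_right (G.fin x (l.take j)) (l.drop j)
    rw [fin_fin] at h
    exact h
  eqn := by
    obtain ⟨f1, f2, f3, f4, f5, f6, f7, -, -, -, -⟩ := specFRM G
    rw [heq0_iff]
    have hA' := heq0_iff.1 hA.eqn
    have hB' := heq0_iff.1 hB.eqn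
    intro V Fr v l
    obtain ⟨-, l2, -, -, -⟩ := specLEI ℝ V (ι → ℝ) (ι → ℝ) (κ → ℝ) (μ → ℝ)
    obtain ⟨-, l2', -, -, -⟩ := specLEI ℝ V (ι → ℝ) (κ → ℝ) (κ → ℝ) (μ → ℝ)
    obtain ⟨-, l2'', -, -, -⟩ := specLEI ℝ V (ι → ℝ) (κ → ℝ) (μ → ℝ) (μ → ℝ)
    obtain ⟨-, -, -, l4, -⟩ := specLEI ℝ V (ι → ℝ) (κ → ℝ) (μ → ℝ) (μ → ℝ)
    have h1 : Fr.hom (starG G A B) = cv (Fr.hom A) (Fr.hom B) := by
      funext v l
      exact f2 V Fr ι κ μ A B v l
    have h2 : eps (cv (Fr.hom A) (Fr.hom B)) = cv (eps (Fr.hom A)) (eps (Fr.hom B)) := by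
      funext v l
      exact eps_cv _ _ v l
    have h3 : cv (eps (Fr.hom B)) (Fr.hom RE) = cv (Fr.hom RF) (Fr.hom B) + fc (Fr.hom B) := by
      funext v l
      exact hB' V Fr v l
    have h4 : cv (eps (Fr.hom A)) (Fr.hom RF) = cv (Fr.hom RG) (Fr.hom A) + fc (Fr.hom A) := by
      funext v l
      exact hA' V Fr v l
    have h5 : cv (cv (eps (Fr.hom A)) (eps (Fr.hom B))) (Fr.hom RE) v l =
        cv (eps (Fr.hom A)) (cv (eps (Fr.hom B)) (Fr.hom RE)) v l := l2 _ _ _ v l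
    have h6 : cv (cv (eps (Fr.hom A)) (Fr.hom RF)) (Fr.hom B) v l =
        cv (eps (Fr.hom A)) (cv (Fr.hom RF) (Fr.hom B)) v l := l2' _ _ _ v l
    have h7 : cv (cv (Fr.hom RG) (Fr.hom A)) (Fr.hom B) v l =
        cv (Fr.hom RG) (cv (Fr.hom A) (Fr.hom B)) v l := l2'' _ _ _ v l
    rw [h1, h2, h5, h3, cv_add_right, ← h6, h4, cv_add_left, h7, l4, add_assoc]

end Pool.Agent.Lib.MP_9b987c_gt.HC.UR
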